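import Pool.Agent.helper98.GMCChaosB

/-!
Module E2 of MP_d68443_pr: existence of the chaos measure of a logarithmic field on `[0,1]`.
-/

open MeasureTheory ProbabilityTheory Filter Topology Set
open scoped ENNReal NNReal CompactlySupported

namespace Pool.Agent.helper95.GMC

namespace Chaos

open LogField

lemma exists_levels (hsym : ∀ n i m j, Cc n i m j = Cc m j n i) :
    ∃ ns : ℕ → ℕ, StrictMono ns ∧ ∀ k, 2 ≤ ns k ∧ ∀ a b, ns k ≤ a → ns k ≤ b →
      TT a b ≤ (1 / 4 : ℝ) ^ k := by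
  refine extraction_forall_of_eventually'
    (P := fun k n => 2 ≤ n ∧ ∀ a b, n ≤ a → n ≤ b → TT a b ≤ (1 / 4 : ℝ) ^ k) fun k => ?_
  have h1 := (tt_tendsto hsym).eventually_lt_const (u := (1 / 4 : ℝ) ^ k) (by positivity)
  rw [prod_atTop_atTop_eq, eventually_atTop_prod_self'] at h1
  obtain ⟨N, hN⟩ := h1
  refine ⟨max N 2, fun n hn => ⟨(le_max_right _ _).trans hn, fun a b ha hb => ?_⟩⟩
  have hn' : N ≤ n := (le_max_left _ _).trans hn
  exact (hN a (hn'.trans ha) b (hn'.trans hb)).le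

lemma exists_measure (L : ℕ → C(Set.Icc (0 : ℝ) 1, ℝ) → ℝ)
    (hadd : ∀ k g h, L k (g + h) = L k g + L k h) (hsmul : ∀ k (c : ℝ) g, L k (c • g) = c * L k g)
    (hpos : ∀ k g, (∀ x, 0 ≤ g x) → 0 ≤ L k g)
    (hconv : ∀ g, ∃ l, Tendsto (fun k => L k g) atTop (𝓝 l)) :
    ∃ μ : Measure (Set.Icc (0 : ℝ) 1), IsFiniteMeasure μ ∧
      ∀ g : C(Set.Icc (0 : ℝ) 1, ℝ), Tendsto (fun k => L k g) atTop (𝓝 (∫ x, g x ∂μ)) := by
  choose l hl using hconv
  have ladd : ∀ g h, l (g + h) = l g + l h := by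
    intro g h
    refine tendsto_nhds_unique (hl (g + h)) ?_
    simp only [hadd]
    exact (hl g).add (hl h)
  have lsmul : ∀ (c : ℝ) g, l (c • g) = c * l g := by
    intro c g
    refine tendsto_nhds_unique (hl (c • g)) ?_
    simp only [hsmul]
    exact (hl g).const_mul c
  have lpos : ∀ g : C(Set.Icc (0 : ℝ) 1, ℝ), (∀ x, 0 ≤ g x) → 0 ≤ l g := fun g hg =>
    ge_of_tendsto' (hl g) fun k => hpos k g hg
  let Λ0 : C_c(Set.Icc (0 : ℝ) 1, ℝ) →ₗ[ℝ] ℝ :=
    { toFun := fun g => l g.toContinuousMap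
      map_add' := fun g h => ladd _ _
      map_smul' := fun c g => lsmul _ _ }
  let Λ : C_c(Set.Icc (0 : ℝ) 1, ℝ) →ₚ[ℝ] ℝ := PositiveLinearMap.mk₀ Λ0 (fun g hg => lpos _ hg)
  refine ⟨RealRMK.rieszMeasure Λ, inferInstance, fun g => ?_⟩
  have h1 := RealRMK.integral_rieszMeasure Λ (CompactlySupportedContinuousMap.continuousMapEquiv g)
  have h2 : ∫ x, g x ∂(RealRMK.rieszMeasure Λ) = l g := h1
  rw [h2]
  exact hl g

/-- extension of continuous functions -/
noncomputable def ex (g : C(Set.Icc (0 : ℝ) 1, ℝ)) : ℝ → ℝ := Set.IccExtend zero_le_one g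

lemma ex_bdd (g : C(Set.Icc (0 : ℝ) 1, ℝ)) (x : ℝ) : |ex g x| ≤ ‖g‖ := g.norm_coe_le_norm _

lemma measurable_ex (g : C(Set.Icc (0 : ℝ) 1, ℝ)) : Measurable (ex g) :=
  (g.continuous.Icc_extend').measurable

variable {Ω : Type*} [MeasurableSpace Ω] {P : Measure Ω} [IsProbabilityMeasure P]
  {W : (ℝ → ℝ) → Ω → ℝ}

lemma ae_cauchy (hW : IsLogField P (Set.Icc 0 1) W) {ns : ℕ → ℕ} (hmono : StrictMono ns)
    (hns : ∀ k, 2 ≤ ns k ∧ ∀ a b, ns k ≤ a → ns k ≤ b → TT a b ≤ (1 / 4 : ℝ) ^ k)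
    {f : ℝ → ℝ} (hf : Measurable f) {B : ℝ} (hB : ∀ x, |f x| ≤ B) :
    ∀ᵐ ω ∂P, CauchySeq (fun k => MM hW f (ns k) ω) := by
  set D : ℕ → Ω → ℝ := fun k ω => (MM hW f (ns k) ω - MM hW f (ns (k + 1)) ω) ^ 2 with hD
  have h1 : ∀ k, Integrable (D k) P ∧ ∫ ω, D k ω ∂P ≤ B ^ 2 * (4 * (1 / 4 : ℝ) ^ k) := by
    intro k
    have hn : 1 ≤ ns k := le_trans (by norm_num) (hns k).1
    have hm : 1 ≤ ns (k + 1) := le_trans (by norm_num) (hns (k + 1)).1
    obtain ⟨h2, h3⟩ := MM_sq hW hn hm hf hB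
    refine ⟨h2, h3.trans ?_⟩
    refine mul_le_mul_of_nonneg_left ?_ (sq_nonneg _)
    have h4 : ns k ≤ ns (k + 1) := (hmono (Nat.lt_succ_self k)).le
    have e1 := (hns k).2 (ns k) (ns k) le_rfl le_rfl
    have e2 := (hns k).2 (ns k) (ns (k + 1)) le_rfl h4
    have e3 := (hns k).2 (ns (k + 1)) (ns k) h4 le_rfl
    have e4 := (hns k).2 (ns (k + 1)) (ns (k + 1)) h4 h4
    linarith
  have h2 : ∫⁻ ω, ∑' k, ENNReal.ofReal (2 ^ k * D k ω) ∂P ≠ ∞ := by
    rw [lintegral_tsum fun k => ((h1 k).1.const_mul _).aestronglyMeasurable.aemeasurable.ennreal_ofReal]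
    have h3 : ∀ k, ∫⁻ ω, ENNReal.ofReal (2 ^ k * D k ω) ∂P ≤
        ENNReal.ofReal (4 * B ^ 2 * (1 / 2 : ℝ) ^ k) := by
      intro k
      rw [← ofReal_integral_eq_lintegral_ofReal ((h1 k).1.const_mul _)
        (ae_of_all _ fun ω => by simp only [hD, Pi.zero_apply]; positivity), integral_const_mul]
      apply ENNReal.ofReal_le_ofReal
      calc (2 : ℝ) ^ k * ∫ ω, D k ω ∂P ≤ 2 ^ k * (B ^ 2 * (4 * (1 / 4 : ℝ) ^ k)) := by
            refine mul_le_mul_of_nonneg_left (h1 k).2 (by positivity)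
        _ = 4 * B ^ 2 * (2 ^ k * (1 / 4 : ℝ) ^ k) := by ring
        _ = _ := by
            rw [← mul_pow]
            norm_num
    refine ne_top_of_le_ne_top ?_ (ENNReal.tsum_le_tsum h3)
    have h4 : Summable (fun k : ℕ => 4 * B ^ 2 * (1 / 2 : ℝ) ^ k) :=
      (summable_geometric_of_lt_one (by norm_num) (by norm_num)).mul_left _
    rw [← ENNReal.ofReal_tsum_of_nonneg (fun k => by positivity) h4]
    exact ENNReal.ofReal_ne_top
  have h3 := ae_lt_top' (AEMeasurable.ennreal_tsum fun k =>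
    ((h1 k).1.const_mul _).aestronglyMeasurable.aemeasurable.ennreal_ofReal) h2
  filter_upwards [h3] with ω hω
  set C : ℝ := (∑' k, ENNReal.ofReal (2 ^ k * D k ω)).toReal with hC
  have h5 : ∀ k, 2 ^ k * D k ω ≤ C := by
    intro k
    have h6 : ENNReal.ofReal (2 ^ k * D k ω) ≤ ∑' k, ENNReal.ofReal (2 ^ k * D k ω) :=
      ENNReal.le_tsum k
    have h7 := ENNReal.toReal_mono hω.ne h6
    rwa [ENNReal.toReal_ofReal (by simp only [hD]; positivity)] at h7
  have hC0 : 0 ≤ C := ENNReal.toReal_nonneg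
  refine cauchySeq_of_le_geometric (1 / √2) (√C) ?_ fun k => ?_
  · rw [div_lt_one (by positivity)]
    exact Real.lt_sqrt_of_sq_lt (by norm_num)
  · rw [Real.dist_eq]
    have h8 := h5 k
    apply abs_le_of_sq_le_sq _ (by positivity)
    rw [mul_pow, Real.sq_sqrt hC0, ← pow_mul, mul_comm k 2, pow_mul, div_pow, one_pow,
      Real.sq_sqrt (by norm_num), div_pow, one_pow, mul_one_div, le_div_iff₀ (by positivity)]
    linarith

lemma MM_add (hW : IsLogField P (Set.Icc 0 1) W) (n : ℕ) (ω : Ω) (g h : C(Set.Icc (0 : ℝ) 1, ℝ)) :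
    MM hW (ex (g + h)) n ω = MM hW (ex g) n ω + MM hW (ex h) n ω := by
  unfold MM
  rw [← integral_add (int_Zx hW n ω (measurable_ex g) (ex_bdd g))
    (int_Zx hW n ω (measurable_ex h) (ex_bdd h))]
  refine integral_congr_ae (ae_of_all _ fun x => ?_)
  simp only [ex, Set.IccExtend, Function.comp_apply, ContinuousMap.add_apply]
  ring

lemma MM_smul (hW : IsLogField P (Set.Icc 0 1) W) (n : ℕ) (ω : Ω) (c : ℝ)
    (g : C(Set.Icc (0 : ℝ) 1, ℝ)) :
    MM hW (ex (c • g)) n ω = c * MM hW (ex g) n ω := by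
  unfold MM
  rw [← integral_const_mul]
  refine integral_congr_ae (ae_of_all _ fun x => ?_)
  simp only [ex, Set.IccExtend, Function.comp_apply, ContinuousMap.smul_apply, smul_eq_mul]
  ring

lemma MM_nonneg (hW : IsLogField P (Set.Icc 0 1) W) (n : ℕ) (ω : Ω)
    (g : C(Set.Icc (0 : ℝ) 1, ℝ)) (hg : ∀ x, 0 ≤ g x) : 0 ≤ MM hW (ex g) n ω := by
  unfold MM
  exact integral_nonneg fun x => mul_nonneg (hg _) (ZZ_pos hW _ _ _).le

lemma MM_abs (hW : IsLogField P (Set.Icc 0 1) W) (n : ℕ) (ω : Ω)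
    (g : C(Set.Icc (0 : ℝ) 1, ℝ)) : |MM hW (ex g) n ω| ≤ ‖g‖ * MM hW (ex 1) n ω := by
  unfold MM
  rw [← Real.norm_eq_abs, ← integral_const_mul]
  refine norm_integral_le_of_norm_le ((int_Zx hW n ω (measurable_ex 1) (ex_bdd 1)).const_mul _)
    (ae_of_all _ fun x => ?_)
  rw [norm_mul, Real.norm_eq_abs, Real.norm_eq_abs, abs_of_pos (ZZ_pos hW _ _ _)]
  have : ex 1 x = 1 := rfl
  rw [this, one_mul]
  exact mul_le_mul_of_nonneg_right (ex_bdd g x) (ZZ_pos hW _ _ _).le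

lemma cauchy_all (hW : IsLogField P (Set.Icc 0 1) W) (ns : ℕ → ℕ) (ω : Ω)
    {S : Set C(Set.Icc (0 : ℝ) 1, ℝ)} (hS : Dense S)
    (h1 : CauchySeq (fun k => MM hW (ex 1) (ns k) ω))
    (h2 : ∀ g ∈ S, CauchySeq (fun k => MM hW (ex g) (ns k) ω)) (g : C(Set.Icc (0 : ℝ) 1, ℝ)) :
    CauchySeq (fun k => MM hW (ex g) (ns k) ω) := by
  obtain ⟨C, hC⟩ := h1.isBounded_range.exists_norm_le
  have hC' : ∀ k, MM hW (ex 1) (ns k) ω ≤ C := fun k =>
    (le_abs_self _).trans (hC _ ⟨k, rfl⟩)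
  have hC0 : 0 ≤ C := (norm_nonneg _).trans (hC _ ⟨0, rfl⟩)
  rw [Metric.cauchySeq_iff]
  intro ε hε
  obtain ⟨g', hg', hd⟩ := hS.exists_dist_lt g (ε := ε / (4 * (C + 1))) (by positivity)
  have hcs := h2 g' hg'
  rw [Metric.cauchySeq_iff] at hcs
  obtain ⟨N, hN⟩ := hcs (ε / 2) (by positivity)
  refine ⟨N, fun m hm n hn => ?_⟩
  have key : ∀ k, |MM hW (ex g) (ns k) ω - MM hW (ex g') (ns k) ω| ≤ ε / 4 := by
    intro k
    have h3 : MM hW (ex g) (ns k) ω - MM hW (ex g') (ns k) ω =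
        MM hW (ex (g + (-1 : ℝ) • g')) (ns k) ω := by
      rw [MM_add, MM_smul]
      ring
    rw [h3]
    refine (MM_abs hW _ _ _).trans ?_
    have h4 : ‖g + (-1 : ℝ) • g'‖ ≤ ε / (4 * (C + 1)) := by
      have : g + (-1 : ℝ) • g' = g - g' := by
        rw [neg_one_smul, sub_eq_add_neg]
      rw [this, ← dist_eq_norm]
      exact hd.le
    have h5 : 0 ≤ MM hW (ex 1) (ns k) ω := MM_nonneg hW _ _ _ fun x => zero_le_one
    calc ‖g + (-1 : ℝ) • g'‖ * MM hW (ex 1) (ns k) ω ≤ ε / (4 * (C + 1)) * (C + 1) := by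
          refine mul_le_mul h4 ((hC' k).trans (by linarith)) h5 (by positivity)
      _ = ε / 4 := by field_simp
  have h6 := hN m hm n hn
  rw [Real.dist_eq] at h6 ⊢
  have h7 : MM hW (ex g) (ns m) ω - MM hW (ex g) (ns n) ω =
      (MM hW (ex g) (ns m) ω - MM hW (ex g') (ns m) ω) +
      ((MM hW (ex g') (ns m) ω - MM hW (ex g') (ns n) ω) +
      -(MM hW (ex g) (ns n) ω - MM hW (ex g') (ns n) ω)) := by ring
  rw [h7]
  have h8 := key m
  have h9 := key n
  refine (abs_add_le _ _).trans_lt ?_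
  have h10 := abs_add_le (MM hW (ex g') (ns m) ω - MM hW (ex g') (ns n) ω)
    (-(MM hW (ex g) (ns n) ω - MM hW (ex g') (ns n) ω))
  rw [abs_neg] at h10
  linarith

end Chaos

open Chaos in
/-- existence of the chaos measure -/
theorem exists_chaos_of_field {Ω : Type*} [MeasurableSpace Ω] (P : Measure Ω)
    [IsProbabilityMeasure P] (W : (ℝ → ℝ) → Ω → ℝ) (hW : IsLogField P (Set.Icc 0 1) W) :
    ∃ (ρ : ℕ → ℝ → ℝ → ℝ) (ε : ℕ → ℝ) (A : ℝ) (X : ℕ → ℝ → Ω → ℝ) (Mγ : Ω → Measure ℝ),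
      IsMollifier ρ ε A ∧ (∀ m, ε m ≤ 1) ∧
      (∀ m, ∀ x ∈ Set.Icc (0 : ℝ) 1, IsTest (Set.Icc 0 1) (ρ m x)) ∧ IsChaos P W ρ X Mγ := by
  obtain ⟨ns, hmono, hns⟩ := exists_levels (cc_symm hW)
  obtain ⟨S, hSc, hSd⟩ := TopologicalSpace.exists_countable_dense C(Set.Icc (0 : ℝ) 1, ℝ)
  have hns1 : ∀ m, 1 ≤ ns m := fun m => le_trans (by norm_num) (hns m).1
  have hns2 : ∀ m, (2 : ℝ) ≤ ns m := fun m => by exact_mod_cast (hns m).1
  -- the good event
  have hgood : ∀ᵐ ω ∂P, CauchySeq (fun k => MM hW (ex 1) (ns k) ω) ∧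
      ∀ g ∈ S, CauchySeq (fun k => MM hW (ex g) (ns k) ω) := by
    refine (ae_cauchy hW hmono hns (measurable_ex 1) (ex_bdd 1)).and ?_
    rw [ae_ball_iff hSc]
    intro g _
    exact ae_cauchy hW hmono hns (measurable_ex g) (ex_bdd g)
  have hex : ∀ ω, ∃ μ : Measure ℝ, (CauchySeq (fun k => MM hW (ex 1) (ns k) ω) ∧
      ∀ g ∈ S, CauchySeq (fun k => MM hW (ex g) (ns k) ω)) → IsFiniteMeasure μ ∧
      ∀ f : BoundedContinuousFunction ℝ ℝ, Tendsto (fun m => MM hW f (ns m) ω) atTop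
        (𝓝 (∫ x, f x ∂μ)) := by
    intro ω
    by_cases hω : (CauchySeq (fun k => MM hW (ex 1) (ns k) ω) ∧
      ∀ g ∈ S, CauchySeq (fun k => MM hW (ex g) (ns k) ω))
    · obtain ⟨μ, hμ, hlim⟩ := exists_measure (fun k g => MM hW (ex g) (ns k) ω)
        (fun k g h => MM_add hW _ _ _ _) (fun k c g => MM_smul hW _ _ _ _)
        (fun k g hg => MM_nonneg hW _ _ _ hg) (fun g =>
          cauchySeq_tendsto_of_complete (cauchy_all hW ns ω hSd hω.1 hω.2 g))
      refine ⟨μ.map Subtype.val, fun _ => ⟨inferInstance, fun f => ?_⟩⟩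
      have h1 := hlim (f.toContinuousMap.restrict (Set.Icc 0 1))
      rw [integral_map measurable_subtype_coe.aemeasurable f.continuous.aestronglyMeasurable]
      refine h1.congr fun k => ?_
      unfold MM
      refine integral_congr_ae ?_
      filter_upwards [mem_nu] with x hx
      congr 1
      unfold ex
      rw [Set.IccExtend_of_mem _ _ hx]
      rfl
    · exact ⟨0, fun h => absurd h hω⟩
  choose Mγ hM using hex
  refine ⟨fun m x => gg (ns m) ⌊ns m * x⌋₊, fun m => 2 / ns m, 2,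
    fun m x => xi hW (ns m) ⌊ns m * x⌋₊, Mγ, ?_, ?_, ?_, ?_⟩
  · refine ⟨fun m => ?_, fun m => ?_, ?_, fun m x _ u => gg_nonneg _ _ _, fun m x hx u hu => ?_,
      fun m x hx u => ?_, fun m x hx => integral_gg (hns1 m) (floor_le hx)⟩
    · have h1 : Measurable (fun p : ℕ × ℝ => gg (ns m) p.1 p.2) :=
        measurable_from_prod_countable_right fun i => measurable_gg (ns m) i
      have h3 : Measurable (fun x : ℝ => ⌊ns m * x⌋₊) :=
        Nat.measurable_floor.comp (measurable_const.mul measurable_id)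
      have h2 : Measurable (fun q : ℝ × ℝ => ((⌊ns m * q.1⌋₊, q.2) : ℕ × ℝ)) :=
        (h3.comp measurable_fst).prodMk measurable_snd
      have h4 := h1.comp h2
      simpa only [Function.comp_def] using h4
    · have := hns2 m
      positivity
    · exact (tendsto_const_div_atTop_nhds_zero_nat 2).comp hmono.tendsto_atTop
    · by_contra h
      exact absurd (gg_near (hns1 m) hx h) (not_le.mpr hu)
    · have := hns2 m
      have h1 := gg_le (ns m) ⌊ns m * x⌋₊ u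
      have h2 : (2 : ℝ) / (2 / ns m) = ns m := by field_simp
      rwa [h2]
  · intro m
    have := hns2 m
    rw [div_le_one (by linarith)]
    exact this
  · intro m x _
    exact isTest_gg _ _
  · refine ⟨fun m => ?_, fun m x _ => (xi_ae hW _ _).symm, ?_, ?_⟩
    · have h1 : Measurable (fun p : ℕ × Ω => xi hW (ns m) p.1 p.2) :=
        measurable_from_prod_countable_right fun i => measurable_xi hW (ns m) i
      have h3 : Measurable (fun x : ℝ => ⌊ns m * x⌋₊) :=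
        Nat.measurable_floor.comp (measurable_const.mul measurable_id)
      have h2 : Measurable (fun q : ℝ × Ω => ((⌊ns m * q.1⌋₊, q.2) : ℕ × Ω)) :=
        (h3.comp measurable_fst).prodMk measurable_snd
      have h4 := h1.comp h2
      simpa only [Function.comp_def] using h4
    · filter_upwards [hgood] with ω hω
      exact (hM ω hω).1
    · filter_upwards [hgood] with ω hω f
      refine ((hM ω hω).2 f).congr fun m => ?_
      unfold MM nu ZZ
      rw [intervalIntegral.integral_of_le zero_le_one, integral_Icc_eq_integral_Ioc]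

end Pool.Agent.helper95.GMC
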