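import Pool.Agent.helper24.GMCLogField

/-!
Module E2 of MP_d68443_pr, deterministic part: a piecewise constant mollification of the
logarithmic kernel on `[0,1]`.
-/

open MeasureTheory ProbabilityTheory Filter Topology Set
open scoped ENNReal NNReal

namespace Pool.Agent.helper95.GMC

namespace Chaos

open LogField

/-- left end points -/
noncomputable def aa (n i : ℕ) : ℝ := (1 - 1 / (n : ℝ)) * (i / n)

/-- normalised indicators -/
noncomputable def gg (n i : ℕ) : ℝ → ℝ :=
  if i ≤ n then (Set.Icc (aa n i) (aa n i + 1 / n)).indicator (fun _ => (n : ℝ)) else fun _ => 0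

/-- covariances -/
noncomputable def Cc (n i m j : ℕ) : ℝ := ∫ u, ∫ v, gg n i u * gg m j v * Real.log (1 / |u - v|)

lemma gg_nonneg (n i : ℕ) (u : ℝ) : 0 ≤ gg n i u := by
  unfold gg
  split_ifs
  · exact Set.indicator_nonneg (fun _ _ => Nat.cast_nonneg n) u
  · exact le_rfl

lemma gg_le (n i : ℕ) (u : ℝ) : gg n i u ≤ n := by
  unfold gg
  split_ifs
  · exact Set.indicator_le_self' (fun _ _ => Nat.cast_nonneg n) u
  · exact Nat.cast_nonneg n

lemma measurable_gg (n i : ℕ) : Measurable (gg n i) := by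
  unfold gg
  split_ifs
  · exact measurable_const.indicator measurableSet_Icc
  · exact measurable_const

lemma mem_of_gg {n i : ℕ} {u : ℝ} (h : gg n i u ≠ 0) :
    i ≤ n ∧ u ∈ Set.Icc (aa n i) (aa n i + 1 / n) := by
  unfold gg at h
  split_ifs at h with hi
  · exact ⟨hi, Set.mem_of_indicator_ne_zero h⟩
  · exact absurd rfl h

lemma aa_bounds {n i : ℕ} (hn : 1 ≤ n) (hi : i ≤ n) :
    0 ≤ aa n i ∧ aa n i + 1 / n ≤ 1 ∧ aa n i ≤ (i : ℝ) / n ∧ (i : ℝ) / n ≤ aa n i + 1 / n := by
  unfold aa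
  have hn' : (1 : ℝ) ≤ n := by exact_mod_cast hn
  have hn0 : (0 : ℝ) < n := by linarith
  have h1 : (1 : ℝ) / n ≤ 1 := by rw [div_le_one hn0]; exact hn'
  have h0 : (0 : ℝ) < 1 / n := by positivity
  have h2 : (i : ℝ) / n ≤ 1 := by rw [div_le_one hn0]; exact_mod_cast hi
  have h3 : (0 : ℝ) ≤ (i : ℝ) / n := by positivity
  refine ⟨by nlinarith, by nlinarith, by nlinarith, by nlinarith⟩

lemma isTest_gg (n i : ℕ) : IsTest (Set.Icc 0 1) (gg n i) := by
  refine ⟨measurable_gg n i, ⟨n, fun u => ?_⟩, fun u hu => ?_⟩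
  · rw [abs_of_nonneg (gg_nonneg n i u)]
    exact gg_le n i u
  · by_contra h
    obtain ⟨h1, h2⟩ := mem_of_gg h
    rcases Nat.eq_zero_or_pos n with h0 | h0
    · subst h0
      have := gg_le 0 i u
      have h4 := gg_nonneg 0 i u
      apply h
      push_cast at this
      linarith
    · obtain ⟨h3, h4, -, -⟩ := aa_bounds h0 h1
      exact hu ⟨h3.trans h2.1, h2.2.trans h4⟩

lemma integrable_gg (n i : ℕ) : Integrable (gg n i) := test_integrable (isTest_gg n i)

lemma integral_gg {n i : ℕ} (hn : 1 ≤ n) (hi : i ≤ n) : ∫ u, gg n i u = 1 := by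
  unfold gg
  rw [if_pos hi]
  rw [integral_indicator measurableSet_Icc]
  have hn0 : (0 : ℝ) < n := by exact_mod_cast hn
  simp only [integral_const, MeasurableSet.univ, measureReal_restrict_apply, Set.univ_inter,
    Real.volume_real_Icc, smul_eq_mul]
  rw [max_eq_left (by
    have : (0 : ℝ) < 1 / n := by positivity
    linarith)]
  field_simp
  ring

lemma gg_near {n : ℕ} (hn : 1 ≤ n) {x : ℝ} (hx : x ∈ Set.Icc (0 : ℝ) 1) {u : ℝ}
    (h : gg n ⌊n * x⌋₊ u ≠ 0) : |u - x| ≤ 2 / n := by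
  have hn0 : (0 : ℝ) < n := by exact_mod_cast hn
  obtain ⟨h1, h2⟩ := mem_of_gg h
  obtain ⟨-, -, h3, h4⟩ := aa_bounds hn h1
  have h5 : (⌊n * x⌋₊ : ℝ) ≤ n * x := Nat.floor_le (mul_nonneg hn0.le hx.1)
  have h6 : n * x < (⌊n * x⌋₊ : ℝ) + 1 := Nat.lt_floor_add_one _
  have h7 : (⌊n * x⌋₊ : ℝ) / n ≤ x := by
    rw [div_le_iff₀ hn0]
    linarith
  have h8 : x ≤ (⌊n * x⌋₊ : ℝ) / n + 1 / n := by
    rw [← add_div, le_div_iff₀ hn0]
    linarith
  have h9 : (2 : ℝ) / n = 1 / n + 1 / n := by ring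
  rw [h9, abs_le]
  have h10 := h2.1
  have h11 := h2.2
  constructor <;> linarith

lemma floor_le {n : ℕ} {x : ℝ} (hx : x ∈ Set.Icc (0 : ℝ) 1) : ⌊n * x⌋₊ ≤ n := by
  have : (n : ℝ) * x ≤ n := by
    have : (0 : ℝ) ≤ n := Nat.cast_nonneg n
    nlinarith [hx.2]
  exact Nat.floor_le_of_le this

/-! integrability -/

lemma dom {f g : ℝ → ℝ} (hf : IsTest (Set.Icc 0 1) f) (hg : IsTest (Set.Icc 0 1) g) {B : ℝ}
    (hB : ∀ v, |g v| ≤ B) (u v : ℝ) :
    ‖f u * g v * Real.log (1 / |u - v|)‖ ≤ |f u| * (B * LL (u - v)) := by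
  have hB0 : 0 ≤ B := (abs_nonneg _).trans (hB 0)
  by_cases hu : u ∈ Set.Icc (0 : ℝ) 1
  · by_cases hv : v ∈ Set.Icc (0 : ℝ) 1
    · rw [norm_mul, norm_mul, Real.norm_eq_abs, Real.norm_eq_abs, Real.norm_eq_abs, mul_assoc]
      refine mul_le_mul_of_nonneg_left ?_ (abs_nonneg _)
      have h1 : |u - v| ≤ 1 := by
        rw [abs_le]
        constructor <;> linarith [hu.1, hu.2, hv.1, hv.2]
      rw [log_eq_LL h1]
      exact mul_le_mul_of_nonneg_right (hB v) (LL_nonneg _)
    · rw [hg.2.2 v hv]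
      simp only [mul_zero, zero_mul, norm_zero]
      exact mul_nonneg (abs_nonneg _) (mul_nonneg hB0 (LL_nonneg _))
  · rw [hf.2.2 u hu]
    simp

lemma inner_int {f g : ℝ → ℝ} (hf : IsTest (Set.Icc 0 1) f) (hg : IsTest (Set.Icc 0 1) g) (u : ℝ) :
    Integrable (fun v => f u * g v * Real.log (1 / |u - v|)) := by
  obtain ⟨B, hB⟩ := hg.2.1
  refine (((integrable_LL.comp_sub_left u).const_mul B).const_mul |f u|).mono' ?_
    (ae_of_all _ fun v => dom hf hg hB u v)
  have := hg.1
  exact (by fun_prop : Measurable fun v => f u * g v * Real.log (1 / |u - v|)).aestronglyMeasurable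

lemma outer_int {f g : ℝ → ℝ} (hf : IsTest (Set.Icc 0 1) f) (hg : IsTest (Set.Icc 0 1) g) :
    Integrable (fun u => ∫ v, f u * g v * Real.log (1 / |u - v|)) := by
  obtain ⟨B, hB⟩ := hg.2.1
  refine ((test_integrable hf).abs.mul_const (B * ∫ z, LL z)).mono' ?_
    (ae_of_all _ fun u => ?_)
  · have h1 := hf.1
    have h2 := hg.1
    have h3 : Measurable (fun q : ℝ × ℝ => f q.1 * g q.2 * Real.log (1 / |q.1 - q.2|)) := by
      fun_prop
    exact (h3.stronglyMeasurable.integral_prod_right (ν := (volume : Measure ℝ))).aestronglyMeasurable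
  · refine (norm_integral_le_of_norm_le
      (((integrable_LL.comp_sub_left u).const_mul B).const_mul |f u|)
      (ae_of_all _ fun v => dom hf hg hB u v)).trans ?_
    rw [integral_const_mul, integral_const_mul, integral_sub_left_eq_self LL volume u]

lemma cc_le {n i m j : ℕ} (hn : 1 ≤ n) (hi : i ≤ n) (hm : 1 ≤ m) (hj : j ≤ m) {b : ℝ}
    (h : ∀ u v, gg n i u ≠ 0 → gg m j v ≠ 0 → Real.log (1 / |u - v|) ≤ b) : Cc n i m j ≤ b := by
  have h1 : Cc n i m j ≤ ∫ u, gg n i u * b := by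
    refine integral_mono (outer_int (isTest_gg n i) (isTest_gg m j))
      ((integrable_gg n i).mul_const b) fun u => ?_
    calc ∫ v, gg n i u * gg m j v * Real.log (1 / |u - v|)
        ≤ ∫ v, gg n i u * (gg m j v * b) := by
          refine integral_mono (inner_int (isTest_gg n i) (isTest_gg m j) u)
            (((integrable_gg m j).mul_const b).const_mul _) fun v => ?_
          simp only
          by_cases hu : gg n i u = 0
          · rw [hu]; simp
          by_cases hv : gg m j v = 0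
          · rw [hv]; simp
          rw [mul_assoc]
          refine mul_le_mul_of_nonneg_left ?_ (gg_nonneg n i u)
          exact mul_le_mul_of_nonneg_left (h u v hu hv) (gg_nonneg m j v)
      _ = gg n i u * b := by
          rw [integral_const_mul, integral_mul_const, integral_gg hm hj, one_mul]
  rwa [integral_mul_const, integral_gg hn hi, one_mul] at h1

lemma le_cc {n i m j : ℕ} (hn : 1 ≤ n) (hi : i ≤ n) (hm : 1 ≤ m) (hj : j ≤ m) {b : ℝ}
    (h : ∀ u v, gg n i u ≠ 0 → gg m j v ≠ 0 → b ≤ Real.log (1 / |u - v|)) : b ≤ Cc n i m j := by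
  have h1 : ∫ u, gg n i u * b ≤ Cc n i m j := by
    refine integral_mono ((integrable_gg n i).mul_const b)
      (outer_int (isTest_gg n i) (isTest_gg m j)) fun u => ?_
    calc gg n i u * b = ∫ v, gg n i u * (gg m j v * b) := by
          rw [integral_const_mul, integral_mul_const, integral_gg hm hj, one_mul]
      _ ≤ ∫ v, gg n i u * gg m j v * Real.log (1 / |u - v|) := by
          refine integral_mono (((integrable_gg m j).mul_const b).const_mul _)
            (inner_int (isTest_gg n i) (isTest_gg m j) u) fun v => ?_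
          simp only
          by_cases hu : gg n i u = 0
          · rw [hu]; simp
          by_cases hv : gg m j v = 0
          · rw [hv]; simp
          rw [mul_assoc]
          refine mul_le_mul_of_nonneg_left ?_ (gg_nonneg n i u)
          exact mul_le_mul_of_nonneg_left (h u v hu hv) (gg_nonneg m j v)
  rwa [integral_mul_const, integral_gg hn hi, one_mul] at h1

/-- total mass of the singular part -/
noncomputable def Lam : ℝ := ∫ z, LL z

lemma Lam_nonneg : 0 ≤ Lam := integral_nonneg LL_nonneg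

lemma log_le_LL {z : ℝ} : Real.log (1 / |z|) ≤ LL z := by
  by_cases h : |z| ≤ 1
  · exact (le_abs_self _).trans (log_eq_LL h).le
  · have h1 : LL z = 0 := by unfold LL; rw [if_neg h]
    rw [h1]
    push Not at h
    apply Real.log_nonpos (by positivity)
    rw [div_le_one (by linarith)]
    exact h.le

/-- near diagonal bound -/
lemma inner_le {m j : ℕ} (hm : 1 ≤ m) (hj : j ≤ m) (u : ℝ) (hu : u ∈ Set.Icc (0 : ℝ) 1) :
    ∫ v, gg m j v * Real.log (1 / |u - v|) ≤ Real.log m + Lam := by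
  have hm0 : (0 : ℝ) < m := by exact_mod_cast hm
  -- pointwise bound
  have h1 : ∀ v, v ≠ u → gg m j v * Real.log (1 / |u - v|) ≤
      gg m j v * Real.log m + m * LL (m * (u - v)) := by
    intro v hv
    have h2 : Real.log (1 / |u - v|) = Real.log m + Real.log (1 / |m * (u - v)|) := by
      rw [abs_mul, abs_of_pos hm0, one_div, one_div, Real.log_inv, Real.log_inv,
        Real.log_mul hm0.ne' (by
          rw [abs_ne_zero]
          exact sub_ne_zero.mpr (Ne.symm hv))]
      ring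
    rw [h2, mul_add]
    have h3 := log_le_LL (z := m * (u - v))
    have h4 := LL_nonneg (m * (u - v))
    have h5 := gg_nonneg m j v
    have h6 := gg_le m j v
    have h7 : gg m j v * Real.log (1 / |m * (u - v)|) ≤ m * LL (m * (u - v)) := by
      calc gg m j v * Real.log (1 / |m * (u - v)|) ≤ gg m j v * LL (m * (u - v)) :=
            mul_le_mul_of_nonneg_left h3 h5
        _ ≤ _ := mul_le_mul_of_nonneg_right h6 h4
    linarith
  have hf1 : IsTest (Set.Icc 0 1) ((Set.Icc (0 : ℝ) 1).indicator (fun _ => (1 : ℝ))) := by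
    refine ⟨measurable_const.indicator measurableSet_Icc, ⟨1, fun u => ?_⟩, fun u hu => ?_⟩
    · by_cases h : u ∈ Set.Icc (0 : ℝ) 1
      · rw [Set.indicator_of_mem h]; simp
      · rw [Set.indicator_of_notMem h]; simp
    · rw [Set.indicator_of_notMem hu]
  have hint : Integrable (fun v => gg m j v * Real.log (1 / |u - v|)) := by
    have h2 := inner_int hf1 (isTest_gg m j) u
    simpa [Set.indicator_of_mem hu] using h2
  have hL : Integrable (fun v => LL (m * (u - v))) := by
    have h2 := (integrable_LL.comp_mul_left' hm0.ne').comp_sub_left u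
    exact h2
  have h8 : ∫ v, gg m j v * Real.log (1 / |u - v|) ≤
      ∫ v, (gg m j v * Real.log m + m * LL (m * (u - v))) := by
    refine integral_mono_ae hint (((integrable_gg m j).mul_const _).add (hL.const_mul _)) ?_
    have h9 : ∀ᵐ v : ℝ, v ≠ u := by
      have : (volume : Measure ℝ) {v | ¬ v ≠ u} = 0 := by
        simp
      exact this
    filter_upwards [h9] with v hv
    exact h1 v hv
  refine h8.trans ?_
  rw [integral_add ((integrable_gg m j).mul_const _) (hL.const_mul _), integral_mul_const,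
    integral_gg hm hj, one_mul, integral_const_mul]
  have h10 : ∫ v, LL (m * (u - v)) = (m : ℝ)⁻¹ * Lam := by
    have h11 := integral_sub_left_eq_self (fun z => LL (m * z)) (volume : Measure ℝ) u
    rw [h11, Measure.integral_comp_mul_left, abs_of_pos (inv_pos.mpr hm0)]
    rfl
  rw [h10, ← mul_assoc, mul_inv_cancel₀ hm0.ne', one_mul]

lemma cc_le_log {n i m j : ℕ} (hn : 1 ≤ n) (hi : i ≤ n) (hm : 1 ≤ m) (hj : j ≤ m) :
    Cc n i m j ≤ Real.log m + Lam := by
  have h1 : Cc n i m j ≤ ∫ u, gg n i u * (Real.log m + Lam) := by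
    refine integral_mono (outer_int (isTest_gg n i) (isTest_gg m j))
      ((integrable_gg n i).mul_const _) fun u => ?_
    simp only
    by_cases hu : u ∈ Set.Icc (0 : ℝ) 1
    · simp_rw [mul_assoc]
      rw [integral_const_mul]
      exact mul_le_mul_of_nonneg_left (inner_le hm hj u hu) (gg_nonneg n i u)
    · rw [(isTest_gg n i).2.2 u hu]
      simp
  rwa [integral_mul_const, integral_gg hn hi, one_mul] at h1

lemma cc_dom (hsym : ∀ n i m j, Cc n i m j = Cc m j n i) {n m : ℕ} (hn : 1 ≤ n) (hm : 1 ≤ m)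
    {x y : ℝ} (hx : x ∈ Set.Icc (0 : ℝ) 1) (hy : y ∈ Set.Icc (0 : ℝ) 1) (hxy : x ≠ y) :
    Cc n ⌊n * x⌋₊ m ⌊m * y⌋₊ ≤ Real.log (1 / |x - y|) + (Real.log 8 + Lam) := by
  have hn0 : (0 : ℝ) < n := by exact_mod_cast hn
  have hm0 : (0 : ℝ) < m := by exact_mod_cast hm
  have hd : 0 < |x - y| := abs_pos.mpr (sub_ne_zero.mpr hxy)
  have hi := floor_le (n := n) hx
  have hj := floor_le (n := m) hy
  have key : ∀ {k : ℕ}, 1 ≤ k → |x - y| ≤ 8 / k →
      Real.log k ≤ Real.log (1 / |x - y|) + Real.log 8 := by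
    intro k hk h
    have hk0 : (0 : ℝ) < k := by exact_mod_cast hk
    rw [← Real.log_mul (by positivity) (by norm_num)]
    apply Real.log_le_log hk0
    rw [le_div_iff₀ hk0] at h
    rw [one_div, inv_mul_eq_div, le_div_iff₀ hd]
    linarith
  by_cases hcase : 4 * (1 / (n : ℝ) + 1 / m) ≤ |x - y|
  · refine (cc_le hn hi hm hj (b := Real.log (1 / |x - y|) + Real.log 2) ?_).trans ?_
    · intro u v hu hv
      have h1 := gg_near hn hx hu
      have h2 := gg_near hm hy hv
      have h3 : |x - y| / 2 ≤ |u - v| := by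
        have h4 : |x - y| ≤ |u - x| + |u - v| + |v - y| := by
          have : x - y = -(u - x) + (u - v) + (v - y) := by ring
          rw [this]
          refine (abs_add_le _ _).trans ?_
          gcongr
          refine (abs_add_le _ _).trans ?_
          rw [abs_neg]
        have h5 : (2 : ℝ) / n = 2 * (1 / n) := by ring
        have h6 : (2 : ℝ) / m = 2 * (1 / m) := by ring
        rw [h5] at h1
        rw [h6] at h2
        linarith
      rw [← Real.log_mul (by positivity) (by norm_num)]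
      apply Real.log_le_log
      · have : 0 < |u - v| := by linarith
        positivity
      · have h8 : 1 / |x - y| * 2 = (|x - y| / 2)⁻¹ := by field_simp
        rw [one_div, h8]
        exact inv_anti₀ (by positivity) h3
    · have h7 : Real.log 2 ≤ Real.log 8 := Real.log_le_log (by norm_num) (by norm_num)
      have := Lam_nonneg
      linarith
  · push Not at hcase
    rcases le_total n m with hnm | hnm
    · rw [hsym]
      refine (cc_le_log hm hj hn hi).trans ?_
      have h1 : (1 : ℝ) / m ≤ 1 / n := one_div_le_one_div_of_le hn0 (by exact_mod_cast hnm)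
      have h2 : |x - y| ≤ 8 / n := by
        have : (8 : ℝ) / n = 8 * (1 / n) := by ring
        rw [this]; linarith
      have := key hn h2
      linarith
    · refine (cc_le_log hn hi hm hj).trans ?_
      have h1 : (1 : ℝ) / n ≤ 1 / m := one_div_le_one_div_of_le hm0 (by exact_mod_cast hnm)
      have h2 : |x - y| ≤ 8 / m := by
        have : (8 : ℝ) / m = 8 * (1 / m) := by ring
        rw [this]; linarith
      have := key hm h2
      linarith

lemma cc_tendsto {x y : ℝ} (hx : x ∈ Set.Icc (0 : ℝ) 1) (hy : y ∈ Set.Icc (0 : ℝ) 1)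
    (hxy : x ≠ y) : Tendsto (fun p : ℕ × ℕ => Cc p.1 ⌊p.1 * x⌋₊ p.2 ⌊p.2 * y⌋₊)
      (atTop ×ˢ atTop) (𝓝 (Real.log (1 / |x - y|))) := by
  rw [Metric.tendsto_nhds]
  intro ε hε
  have hcont : ContinuousAt (fun z : ℝ => Real.log (1 / |z|)) (x - y) := by
    have h0 : x - y ≠ 0 := sub_ne_zero.mpr hxy
    have h1 : |x - y| ≠ 0 := abs_ne_zero.mpr h0
    have h2 : (1 : ℝ) / |x - y| ≠ 0 := by positivity
    exact (continuousAt_const.div continuous_abs.continuousAt h1).log h2
  rw [Metric.continuousAt_iff] at hcont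
  obtain ⟨η, hη, hc⟩ := hcont (ε / 2) (by positivity)
  have hN : ∀ᶠ n : ℕ in atTop, 1 ≤ n ∧ (2 : ℝ) / n < η / 2 := by
    have h1 : Tendsto (fun n : ℕ => (2 : ℝ) / n) atTop (𝓝 0) := tendsto_const_div_atTop_nhds_zero_nat 2
    exact (eventually_ge_atTop 1).and (h1.eventually_lt_const (by positivity))
  filter_upwards [hN.prod_mk hN] with p hp
  obtain ⟨⟨hn, hn2⟩, hm, hm2⟩ := hp
  have hi := floor_le (n := p.1) hx
  have hj := floor_le (n := p.2) hy
  have key : ∀ u v, gg p.1 ⌊p.1 * x⌋₊ u ≠ 0 → gg p.2 ⌊p.2 * y⌋₊ v ≠ 0 →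
      |Real.log (1 / |u - v|) - Real.log (1 / |x - y|)| < ε / 2 := by
    intro u v hu hv
    have h1 := gg_near hn hx hu
    have h2 := gg_near hm hy hv
    have h3 : dist (u - v) (x - y) < η := by
      rw [Real.dist_eq]
      have : u - v - (x - y) = (u - x) - (v - y) := by ring
      rw [this]
      have h4 := abs_sub (u - x) (v - y)
      linarith
    have := hc h3
    rwa [Real.dist_eq] at this
  rw [Real.dist_eq]
  have h1 : Cc p.1 ⌊p.1 * x⌋₊ p.2 ⌊p.2 * y⌋₊ ≤ Real.log (1 / |x - y|) + ε / 2 :=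
    cc_le hn hi hm hj fun u v hu hv => by
      have := (abs_lt.mp (key u v hu hv)).2
      linarith
  have h2 : Real.log (1 / |x - y|) - ε / 2 ≤ Cc p.1 ⌊p.1 * x⌋₊ p.2 ⌊p.2 * y⌋₊ :=
    le_cc hn hi hm hj fun u v hu hv => by
      have := (abs_lt.mp (key u v hu hv)).1
      linarith
  rw [abs_lt]
  constructor <;> linarith

/-- Lebesgue measure on the unit interval -/
noncomputable def nu : Measure ℝ := volume.restrict (Set.Icc (0 : ℝ) 1)

instance : IsProbabilityMeasure nu := ⟨by simp [nu]⟩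

/-- the limit kernel `|x-y|^{-1/2}` -/
noncomputable def rr (q : ℝ × ℝ) : ℝ := Real.exp (Real.log (1 / |q.1 - q.2|) / 2)

lemma integrable_root : Integrable (fun z : ℝ => (Set.Icc (-1 : ℝ) 1).indicator
    (fun z => |z| ^ (-(1 / 2) : ℝ)) z) := by
  have h2 : IntegrableOn (fun z : ℝ => |z| ^ (-(1 / 2) : ℝ)) (Set.Icc (-1) 1) := by
    have h3 : IntervalIntegrable (fun z : ℝ => z ^ (-(1 / 2) : ℝ)) volume 0 1 :=
      intervalIntegral.intervalIntegrable_rpow' (by norm_num)
    have h4 : IntervalIntegrable (fun z : ℝ => |z| ^ (-(1 / 2) : ℝ)) volume 0 1 := by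
      refine h3.congr fun z hz => ?_
      rw [Set.uIoc_of_le (by norm_num)] at hz
      rw [abs_of_pos hz.1]
    have h5 : IntervalIntegrable (fun z : ℝ => |z| ^ (-(1 / 2) : ℝ)) volume (-1) 0 := by
      have h6 := (h4.comp_mul_left (c := -1))
      have h7 := h6.symm
      simpa using h7
    have h8 := h5.trans h4
    rwa [intervalIntegrable_iff_integrableOn_Icc_of_le (by norm_num)] at h8
  exact h2.integrable_indicator measurableSet_Icc

lemma measurable_rr : Measurable rr := by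
  unfold rr
  fun_prop

lemma rr_eq {x y : ℝ} (hx : x ∈ Set.Icc (0 : ℝ) 1) (hy : y ∈ Set.Icc (0 : ℝ) 1) (hxy : x ≠ y) :
    rr (x, y) = (Set.Icc (-1 : ℝ) 1).indicator (fun z => |z| ^ (-(1 / 2) : ℝ)) (x - y) := by
  have h1 : x - y ∈ Set.Icc (-1 : ℝ) 1 := by
    constructor <;> linarith [hx.1, hx.2, hy.1, hy.2]
  have hd : 0 < |x - y| := abs_pos.mpr (sub_ne_zero.mpr hxy)
  rw [Set.indicator_of_mem h1]
  unfold rr
  simp only
  rw [Real.rpow_def_of_pos hd, one_div, Real.log_inv]
  congr 1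
  ring

lemma integrable_rr : Integrable rr (nu.prod nu) := by
  have hroot := integrable_root
  have hne : ∀ x : ℝ, ∀ᵐ y : ℝ ∂nu, y ≠ x ∧ y ∈ Set.Icc (0 : ℝ) 1 := by
    intro x
    unfold nu
    have h1 : ∀ᵐ y : ℝ ∂(volume.restrict (Set.Icc (0 : ℝ) 1)), y ≠ x := by
      refine ae_restrict_of_ae ?_
      have : (volume : Measure ℝ) {v | ¬ v ≠ x} = 0 := by
        simp
      exact this
    filter_upwards [h1, ae_restrict_mem measurableSet_Icc] with y h2 h3
    exact ⟨h2, h3⟩
  have hx1 : ∀ x ∈ Set.Icc (0 : ℝ) 1, Integrable (fun y => rr (x, y)) nu ∧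
      ∫ y, ‖rr (x, y)‖ ∂nu ≤ ∫ z, (Set.Icc (-1 : ℝ) 1).indicator
        (fun z => |z| ^ (-(1 / 2) : ℝ)) z := by
    intro x hx
    have h2 : Integrable (fun y => (Set.Icc (-1 : ℝ) 1).indicator
        (fun z => |z| ^ (-(1 / 2) : ℝ)) (x - y)) := hroot.comp_sub_left x
    have h3 : (fun y => (Set.Icc (-1 : ℝ) 1).indicator
        (fun z => |z| ^ (-(1 / 2) : ℝ)) (x - y)) =ᵐ[nu] fun y => rr (x, y) := by
      filter_upwards [hne x] with y hy
      exact (rr_eq hx hy.2 (Ne.symm hy.1)).symm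
    refine ⟨(h2.mono_measure Measure.restrict_le_self).congr h3, ?_⟩
    have h4 : ∫ y, ‖rr (x, y)‖ ∂nu = ∫ y, (Set.Icc (-1 : ℝ) 1).indicator
        (fun z => |z| ^ (-(1 / 2) : ℝ)) (x - y) ∂nu := by
      refine integral_congr_ae ?_
      filter_upwards [h3] with y hy
      rw [← hy, Real.norm_of_nonneg]
      exact Set.indicator_nonneg (fun z _ => by positivity) _
    rw [h4, ← integral_sub_left_eq_self (fun z => (Set.Icc (-1 : ℝ) 1).indicator
        (fun z => |z| ^ (-(1 / 2) : ℝ)) z) volume x]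
    refine integral_mono_measure Measure.restrict_le_self ?_ h2
    exact ae_of_all _ fun y => Set.indicator_nonneg (fun z _ => by positivity) _
  rw [integrable_prod_iff measurable_rr.aestronglyMeasurable]
  have hmem : ∀ᵐ x : ℝ ∂nu, x ∈ Set.Icc (0 : ℝ) 1 := ae_restrict_mem measurableSet_Icc
  constructor
  · filter_upwards [hmem] with x hx
    exact (hx1 x hx).1
  · refine Integrable.mono' (g := fun _ => ∫ z, (Set.Icc (-1 : ℝ) 1).indicator
        (fun z => |z| ^ (-(1 / 2) : ℝ)) z) (integrable_const _) ?_ ?_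
    · exact (measurable_rr.norm.stronglyMeasurable.integral_prod_right (ν := nu)).aestronglyMeasurable
    · filter_upwards [hmem] with x hx
      rw [Real.norm_of_nonneg (integral_nonneg fun _ => norm_nonneg _)]
      exact (hx1 x hx).2

/-- the piecewise constant exponential kernels -/
noncomputable def ee (n m : ℕ) (q : ℝ × ℝ) : ℝ :=
  Real.exp (Cc n ⌊n * q.1⌋₊ m ⌊m * q.2⌋₊ / 2)

lemma measurable_ee (n m : ℕ) : Measurable (ee n m) := by
  have h1 : Measurable (fun p : ℕ × ℕ => Real.exp (Cc n p.1 m p.2 / 2)) :=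
    measurable_of_countable _
  have h2 : Measurable (fun q : ℝ × ℝ => ((⌊n * q.1⌋₊, ⌊m * q.2⌋₊) : ℕ × ℕ)) :=
    (Nat.measurable_floor.comp (measurable_const.mul measurable_fst)).prodMk
      (Nat.measurable_floor.comp (measurable_const.mul measurable_snd))
  exact h1.comp h2

/-- distance of the kernels in mean -/
noncomputable def TT (n m : ℕ) : ℝ := ∫ q, |ee n m q - rr q| ∂(nu.prod nu)

lemma ae_prod : ∀ᵐ q : ℝ × ℝ ∂(nu.prod nu), q.1 ∈ Set.Icc (0 : ℝ) 1 ∧ q.2 ∈ Set.Icc (0 : ℝ) 1 ∧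
    q.1 ≠ q.2 := by
  have hm : MeasurableSet {q : ℝ × ℝ | ¬ (q.1 ∈ Set.Icc (0 : ℝ) 1 ∧ q.2 ∈ Set.Icc (0 : ℝ) 1 ∧
    q.1 ≠ q.2)} := by
    refine MeasurableSet.compl ?_
    refine (measurable_fst measurableSet_Icc).inter ((measurable_snd measurableSet_Icc).inter ?_)
    exact (measurableSet_eq_fun measurable_fst measurable_snd).compl
  rw [ae_iff, Measure.measure_prod_null hm]
  have hmem : ∀ᵐ x : ℝ ∂nu, x ∈ Set.Icc (0 : ℝ) 1 := ae_restrict_mem measurableSet_Icc
  filter_upwards [hmem] with x hx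
  have h1 : ∀ᵐ y : ℝ ∂nu, y ≠ x := by
    refine ae_restrict_of_ae ?_
    have : (volume : Measure ℝ) {v | ¬ v ≠ x} = 0 := by
      simp
    exact this
  have h2 : ∀ᵐ y : ℝ ∂nu, ¬ (y ∈ Prod.mk x ⁻¹' {q : ℝ × ℝ | ¬ (q.1 ∈ Set.Icc (0 : ℝ) 1 ∧
      q.2 ∈ Set.Icc (0 : ℝ) 1 ∧ q.1 ≠ q.2)}) := by
    filter_upwards [h1, hmem] with y h3 h4
    simp only [Set.mem_preimage, Set.mem_ofPred_eq, not_not]
    exact ⟨hx, h4, Ne.symm h3⟩
  rw [ae_iff] at h2
  simpa using h2

lemma rr_nonneg (q : ℝ × ℝ) : 0 ≤ rr q := (Real.exp_pos _).le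

lemma ee_nonneg (n m : ℕ) (q : ℝ × ℝ) : 0 ≤ ee n m q := (Real.exp_pos _).le

lemma ee_dom (hsym : ∀ n i m j, Cc n i m j = Cc m j n i) {n m : ℕ} (hn : 1 ≤ n) (hm : 1 ≤ m)
    {q : ℝ × ℝ} (h : q.1 ∈ Set.Icc (0 : ℝ) 1 ∧ q.2 ∈ Set.Icc (0 : ℝ) 1 ∧ q.1 ≠ q.2) :
    |ee n m q - rr q| ≤ (Real.exp ((Real.log 8 + Lam) / 2) + 1) * rr q := by
  have h1 := cc_dom hsym hn hm h.1 h.2.1 h.2.2
  have h2 : ee n m q ≤ Real.exp ((Real.log 8 + Lam) / 2) * rr q := by
    unfold ee rr
    rw [← Real.exp_add]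
    apply Real.exp_le_exp.mpr
    linarith
  have h3 := rr_nonneg q
  have h4 := ee_nonneg n m q
  rw [abs_le]
  constructor <;> nlinarith [Real.exp_pos ((Real.log 8 + Lam) / 2)]

lemma tt_int (hsym : ∀ n i m j, Cc n i m j = Cc m j n i) {n m : ℕ} (hn : 1 ≤ n) (hm : 1 ≤ m) :
    Integrable (fun q => |ee n m q - rr q|) (nu.prod nu) := by
  refine (integrable_rr.const_mul (Real.exp ((Real.log 8 + Lam) / 2) + 1)).mono'
    ((measurable_ee n m).sub measurable_rr).abs.aestronglyMeasurable ?_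
  filter_upwards [ae_prod] with q hq
  rw [Real.norm_eq_abs, abs_abs]
  exact ee_dom hsym hn hm hq

lemma tt_tendsto (hsym : ∀ n i m j, Cc n i m j = Cc m j n i) :
    Tendsto (fun p : ℕ × ℕ => TT p.1 p.2) (atTop ×ˢ atTop) (𝓝 0) := by
  have h0 : (0 : ℝ) = ∫ _q : ℝ × ℝ, (0 : ℝ) ∂(nu.prod nu) := by simp
  rw [h0]
  unfold TT
  refine tendsto_integral_filter_of_dominated_convergence
    (fun q => (Real.exp ((Real.log 8 + Lam) / 2) + 1) * rr q) ?_ ?_ ?_ ?_
  · exact Eventually.of_forall fun p =>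
      ((measurable_ee p.1 p.2).sub measurable_rr).abs.aestronglyMeasurable
  · have h1 : ∀ᶠ p : ℕ × ℕ in atTop ×ˢ atTop, 1 ≤ p.1 ∧ 1 ≤ p.2 :=
      (eventually_ge_atTop 1).prod_mk (eventually_ge_atTop 1)
    filter_upwards [h1] with p hp
    filter_upwards [ae_prod] with q hq
    rw [Real.norm_eq_abs, abs_abs]
    exact ee_dom hsym hp.1 hp.2 hq
  · exact integrable_rr.const_mul _
  · filter_upwards [ae_prod] with q hq
    have h1 := cc_tendsto hq.1 hq.2.1 hq.2.2
    have h2 : Tendsto (fun p : ℕ × ℕ => ee p.1 p.2 q) (atTop ×ˢ atTop) (𝓝 (rr q)) := by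
      unfold ee rr
      exact (Real.continuous_exp.tendsto _).comp (h1.div_const 2)
    have h3 : Tendsto (fun p : ℕ × ℕ => |ee p.1 p.2 q - rr q|) (atTop ×ˢ atTop)
        (𝓝 |rr q - rr q|) := (h2.sub_const (rr q)).abs
    simpa using h3

end Chaos

end Pool.Agent.helper95.GMC
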