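import Pool.Agent.helper98.GMCChaosA
import Pool.Agent.helper94.GMCLSF

/-!
Module E2 of MP_d68443_pr, probabilistic part: second moments of the approximating masses.
-/

open MeasureTheory ProbabilityTheory Filter Topology Set
open scoped ENNReal NNReal

namespace Pool.Agent.helper95.GMC

namespace Chaos

open LogField

lemma int4 {α : Type*} [MeasurableSpace α] {μ : Measure α} {a b c d : α → ℝ}
    (ha : Integrable a μ) (hb : Integrable b μ) (hc : Integrable c μ) (hd : Integrable d μ) :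
    ∫ x, (a x - b x - c x + d x) ∂μ = ∫ x, a x ∂μ - ∫ x, b x ∂μ - ∫ x, c x ∂μ + ∫ x, d x ∂μ := by
  rw [integral_add (f := fun x => a x - b x - c x) ((ha.sub hb).sub hc) hd,
    integral_sub (f := fun x => a x - b x) (ha.sub hb) hc, integral_sub ha hb]

lemma int4' {α : Type*} [MeasurableSpace α] {μ : Measure α} {a b c d : α → ℝ}
    (ha : Integrable a μ) (hb : Integrable b μ) (hc : Integrable c μ) (hd : Integrable d μ) :
    ∫ x, (a x + b x + c x + d x) ∂μ = ∫ x, a x ∂μ + ∫ x, b x ∂μ + ∫ x, c x ∂μ + ∫ x, d x ∂μ := by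
  rw [integral_add (f := fun x => a x + b x + c x) ((ha.add hb).add hc) hd,
    integral_add (f := fun x => a x + b x) (ha.add hb) hc, integral_add ha hb]

variable {Ω : Type*} [MeasurableSpace Ω] {P : Measure Ω} [IsProbabilityMeasure P]
  {W : (ℝ → ℝ) → Ω → ℝ}

lemma aem (hW : IsLogField P (Set.Icc 0 1) W) (n i : ℕ) : AEMeasurable (W (gg n i)) P :=
  hW.gauss.aemeasurable ⟨gg n i, isTest_gg n i⟩

/-- measurable version of the field on the functions `gg` -/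
noncomputable def xi (hW : IsLogField P (Set.Icc 0 1) W) (n i : ℕ) : Ω → ℝ := (aem hW n i).mk

lemma measurable_xi (hW : IsLogField P (Set.Icc 0 1) W) (n i : ℕ) : Measurable (xi hW n i) :=
  (aem hW n i).measurable_mk

lemma xi_ae (hW : IsLogField P (Set.Icc 0 1) W) (n i : ℕ) : W (gg n i) =ᵐ[P] xi hW n i :=
  (aem hW n i).ae_eq_mk

lemma xi_gauss (hW : IsLogField P (Set.Icc 0 1) W) :
    IsGaussianProcess (fun (p : ℕ × ℕ) => xi hW p.1 p.2) P := by
  have h1 := hW.gauss.comp_right (fun p : ℕ × ℕ =>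
    (⟨gg p.1 p.2, isTest_gg p.1 p.2⟩ : {f : ℝ → ℝ // IsTest (Set.Icc 0 1) f}))
  exact h1.congr fun p => xi_ae hW p.1 p.2

lemma xi_mean (hW : IsLogField P (Set.Icc 0 1) W) (n i : ℕ) : ∫ ω, xi hW n i ω ∂P = 0 := by
  rw [← integral_congr_ae (xi_ae hW n i)]
  exact hW.mean _ (isTest_gg n i)

lemma xi_memLp (hW : IsLogField P (Set.Icc 0 1) W) (n i : ℕ) : MemLp (xi hW n i) 2 P :=
  ((xi_gauss hW).hasGaussianLaw_eval (n, i)).memLp_two

lemma xi_cov (hW : IsLogField P (Set.Icc 0 1) W) (n i m j : ℕ) :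
    cov[xi hW n i, xi hW m j; P] = Cc n i m j := by
  have h1 := hW.cov _ _ (isTest_gg n i) (isTest_gg m j)
  have h2 : cov[W (gg n i), W (gg m j); P] = cov[xi hW n i, xi hW m j; P] := by
    unfold covariance
    rw [integral_congr_ae (xi_ae hW n i), integral_congr_ae (xi_ae hW m j)]
    refine integral_congr_ae ?_
    filter_upwards [xi_ae hW n i, xi_ae hW m j] with ω h3 h4
    rw [h3, h4]
  rw [← h2, h1]
  rfl

lemma cc_symm (hW : IsLogField P (Set.Icc 0 1) W) (n i m j : ℕ) : Cc n i m j = Cc m j n i := by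
  rw [← xi_cov hW, ← xi_cov hW, covariance_comm]

lemma xi_sq (hW : IsLogField P (Set.Icc 0 1) W) (n i : ℕ) :
    ∫ ω, xi hW n i ω ^ 2 ∂P = Cc n i n i := by
  rw [← xi_cov hW, covariance_self (measurable_xi hW n i).aemeasurable,
    variance_of_integral_eq_zero (measurable_xi hW n i).aemeasurable (xi_mean hW n i)]

/-- exponential weights -/
noncomputable def ZZ (hW : IsLogField P (Set.Icc 0 1) W) (n i : ℕ) (ω : Ω) : ℝ :=
  Real.exp (1 / √2 * xi hW n i ω - (1 / √2) ^ 2 / 2 * ∫ ω', xi hW n i ω' ^ 2 ∂P)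

lemma measurable_ZZ (hW : IsLogField P (Set.Icc 0 1) W) (n i : ℕ) : Measurable (ZZ hW n i) := by
  have := measurable_xi hW n i
  unfold ZZ
  fun_prop

lemma ZZ_mul (hW : IsLogField P (Set.Icc 0 1) W) (n i m j : ℕ) :
    Integrable (fun ω => ZZ hW n i ω * ZZ hW m j ω) P ∧
    ∫ ω, ZZ hW n i ω * ZZ hW m j ω ∂P = Real.exp (Cc n i m j / 2) := by
  have hg := (xi_gauss hW).hasGaussianLaw_add (s := (n, i)) (t := (m, j))
  have hmap := hg.map_eq_gaussianReal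
  simp only at hmap
  have hmean : ∫ ω, (xi hW n i + xi hW m j) ω ∂P = 0 := by
    simp only [Pi.add_apply]
    rw [integral_add ((xi_memLp hW n i).integrable (by norm_num))
      ((xi_memLp hW m j).integrable (by norm_num)), xi_mean, xi_mean, add_zero]
  have hvar : Var[xi hW n i + xi hW m j; P] = Cc n i n i + 2 * Cc n i m j + Cc m j m j := by
    rw [variance_add (xi_memLp hW n i) (xi_memLp hW m j), ← covariance_self
      (measurable_xi hW n i).aemeasurable, ← covariance_self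
      (measurable_xi hW m j).aemeasurable, xi_cov, xi_cov, xi_cov]
  have hs : (1 / √2 : ℝ) ^ 2 = 1 / 2 := by
    rw [div_pow, one_pow, Real.sq_sqrt (by norm_num)]
  have hmgf := mgf_gaussianReal hmap (1 / √2)
  rw [hmean, hs, Real.coe_toNNReal _ (variance_nonneg _ _), hvar] at hmgf
  have heq : ∀ ω, ZZ hW n i ω * ZZ hW m j ω =
      Real.exp (-((Cc n i n i + Cc m j m j) / 4)) *
        Real.exp (1 / √2 * (xi hW n i + xi hW m j) ω) := by
    intro ω
    unfold ZZ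
    rw [hs, xi_sq, xi_sq, ← Real.exp_add, ← Real.exp_add]
    congr 1
    simp only [Pi.add_apply]
    ring
  simp only [heq]
  constructor
  · refine Integrable.const_mul ?_ _
    rw [← mgf_pos_iff, hmgf]
    exact Real.exp_pos _
  · rw [integral_const_mul]
    have : ∫ ω, Real.exp (1 / √2 * (xi hW n i + xi hW m j) ω) ∂P =
        mgf (xi hW n i + xi hW m j) P (1 / √2) := rfl
    rw [this, hmgf, ← Real.exp_add]
    congr 1
    ring

/-- the mass of the function `f` -/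
noncomputable def MM (hW : IsLogField P (Set.Icc 0 1) W) (f : ℝ → ℝ) (n : ℕ) (ω : Ω) : ℝ :=
  ∫ x, f x * ZZ hW n ⌊n * x⌋₊ ω ∂nu

lemma measurable_Zx (hW : IsLogField P (Set.Icc 0 1) W) (n : ℕ) :
    Measurable (fun q : ℝ × Ω => ZZ hW n ⌊n * q.1⌋₊ q.2) := by
  have h1 : Measurable (fun p : ℕ × Ω => ZZ hW n p.1 p.2) :=
    measurable_from_prod_countable_right fun i => measurable_ZZ hW n i
  have h3 : Measurable (fun x : ℝ => ⌊n * x⌋₊) :=
    Nat.measurable_floor.comp (measurable_const.mul measurable_id)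
  have h2 : Measurable (fun q : ℝ × Ω => ((⌊n * q.1⌋₊, q.2) : ℕ × Ω)) :=
    (h3.comp measurable_fst).prodMk measurable_snd
  have h4 := h1.comp h2
  simpa only [Function.comp_def] using h4

/-- a bound for the weights at one level -/
noncomputable def SZ (hW : IsLogField P (Set.Icc 0 1) W) (n : ℕ) (ω : Ω) : ℝ :=
  ∑ i ∈ Finset.range (n + 1), ZZ hW n i ω

lemma ZZ_pos (hW : IsLogField P (Set.Icc 0 1) W) (n i : ℕ) (ω : Ω) : 0 < ZZ hW n i ω :=
  Real.exp_pos _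

lemma ZZ_le_SZ (hW : IsLogField P (Set.Icc 0 1) W) {n : ℕ} {x : ℝ}
    (hx : x ∈ Set.Icc (0 : ℝ) 1) (ω : Ω) : ZZ hW n ⌊n * x⌋₊ ω ≤ SZ hW n ω := by
  unfold SZ
  refine Finset.single_le_sum (f := fun i => ZZ hW n i ω) (fun i _ => (ZZ_pos hW n i ω).le) ?_
  rw [Finset.mem_range]
  have := floor_le (n := n) hx
  omega

lemma SZ_sq_int (hW : IsLogField P (Set.Icc 0 1) W) (n : ℕ) :
    Integrable (fun ω => SZ hW n ω ^ 2) P := by
  unfold SZ
  simp_rw [sq, Finset.sum_mul_sum]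
  exact integrable_finsetSum _ fun i _ => integrable_finsetSum _ fun j _ => (ZZ_mul hW n i n j).1

lemma mem_nu : ∀ᵐ x : ℝ ∂nu, x ∈ Set.Icc (0 : ℝ) 1 := ae_restrict_mem measurableSet_Icc

lemma int_Zx (hW : IsLogField P (Set.Icc 0 1) W) (n : ℕ) (ω : Ω) {f : ℝ → ℝ} (hf : Measurable f)
    {B : ℝ} (hB : ∀ x, |f x| ≤ B) : Integrable (fun x => f x * ZZ hW n ⌊n * x⌋₊ ω) nu := by
  refine Integrable.mono' (g := fun _ => B * SZ hW n ω) (integrable_const _) ?_ ?_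
  · exact (hf.mul ((measurable_Zx hW n).comp
      (measurable_id.prodMk measurable_const))).aestronglyMeasurable
  · filter_upwards [mem_nu] with x hx
    rw [norm_mul, Real.norm_eq_abs, Real.norm_eq_abs, abs_of_pos (ZZ_pos hW _ _ _)]
    exact mul_le_mul (hB x) (ZZ_le_SZ hW hx ω) (ZZ_pos hW _ _ _).le
      ((abs_nonneg _).trans (hB x))

lemma MM_sq (hW : IsLogField P (Set.Icc 0 1) W) {n m : ℕ} (hn : 1 ≤ n) (hm : 1 ≤ m)
    {f : ℝ → ℝ} (hf : Measurable f) {B : ℝ} (hB : ∀ x, |f x| ≤ B) :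
    Integrable (fun ω => (MM hW f n ω - MM hW f m ω) ^ 2) P ∧
    ∫ ω, (MM hW f n ω - MM hW f m ω) ^ 2 ∂P ≤ B ^ 2 * (TT n n + TT n m + TT m n + TT m m) := by
  set Φ : ℝ → Ω → ℝ := fun x ω => f x * (ZZ hW n ⌊n * x⌋₊ ω - ZZ hW m ⌊m * x⌋₊ ω) with hΦ
  have hΦm : Measurable fun q : ℝ × Ω => Φ q.1 q.2 :=
    (hf.comp measurable_fst).mul ((measurable_Zx hW n).sub (measurable_Zx hW m))
  have hB0 : 0 ≤ B := (abs_nonneg _).trans (hB 0)
  have hΦi : Integrable (fun q : ℝ × Ω => Φ q.1 q.2 ^ 2) (nu.prod P) := by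
    have h1 : Integrable (fun q : ℝ × Ω => (2 * B ^ 2) * (SZ hW n q.2 ^ 2 + SZ hW m q.2 ^ 2))
        (nu.prod P) := by
      have h2 : Integrable (fun ω => (2 * B ^ 2) * (SZ hW n ω ^ 2 + SZ hW m ω ^ 2)) P :=
        ((SZ_sq_int hW n).add (SZ_sq_int hW m)).const_mul _
      exact h2.comp_snd nu
    refine h1.mono' (hΦm.pow_const 2).aestronglyMeasurable ?_
    have h3 : ∀ᵐ q : ℝ × Ω ∂(nu.prod P), q.1 ∈ Set.Icc (0 : ℝ) 1 :=
      Measure.quasiMeasurePreserving_fst.ae mem_nu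
    filter_upwards [h3] with q hq
    rw [Real.norm_eq_abs, abs_of_nonneg (sq_nonneg _)]
    have h4 := ZZ_le_SZ hW (n := n) hq q.2
    have h5 := ZZ_le_SZ hW (n := m) hq q.2
    have h6 := ZZ_pos hW n ⌊n * q.1⌋₊ q.2
    have h7 := ZZ_pos hW m ⌊m * q.1⌋₊ q.2
    simp only [hΦ]
    rw [mul_pow]
    have h8 : f q.1 ^ 2 ≤ B ^ 2 := sq_le_sq' (abs_le.mp (hB q.1)).1 (abs_le.mp (hB q.1)).2
    have h9 : (ZZ hW n ⌊n * q.1⌋₊ q.2 - ZZ hW m ⌊m * q.1⌋₊ q.2) ^ 2 ≤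
        2 * (SZ hW n q.2 ^ 2 + SZ hW m q.2 ^ 2) := by
      have h10 : ZZ hW n ⌊n * q.1⌋₊ q.2 ^ 2 ≤ SZ hW n q.2 ^ 2 := by gcongr
      have h11 : ZZ hW m ⌊m * q.1⌋₊ q.2 ^ 2 ≤ SZ hW m q.2 ^ 2 := by gcongr
      nlinarith [sq_nonneg (ZZ hW n ⌊n * q.1⌋₊ q.2 + ZZ hW m ⌊m * q.1⌋₊ q.2)]
    calc _ ≤ B ^ 2 * (2 * (SZ hW n q.2 ^ 2 + SZ hW m q.2 ^ 2)) :=
          mul_le_mul h8 h9 (sq_nonneg _) (sq_nonneg _)
      _ = _ := by ring
  obtain ⟨r1, r2, r3⟩ := sq_integral_swap P nu Φ hΦm hΦi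
  have hdiff : ∀ ω, MM hW f n ω - MM hW f m ω = ∫ x, Φ x ω ∂nu := by
    intro ω
    unfold MM
    rw [← integral_sub (int_Zx hW n ω hf hB) (int_Zx hW m ω hf hB)]
    refine integral_congr_ae (ae_of_all _ fun x => ?_)
    simp only [hΦ]
    ring
  simp only [hdiff]
  refine ⟨r1, ?_⟩
  rw [r3]
  have hQ : ∀ q : ℝ × ℝ, ∫ ω, Φ q.1 ω * Φ q.2 ω ∂P = f q.1 * f q.2 *
      (ee n n q - ee n m q - ee m n q + ee m m q) := by
    intro q
    have e1 : ∀ ω, Φ q.1 ω * Φ q.2 ω = f q.1 * f q.2 *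
        (ZZ hW n ⌊n * q.1⌋₊ ω * ZZ hW n ⌊n * q.2⌋₊ ω
        - ZZ hW n ⌊n * q.1⌋₊ ω * ZZ hW m ⌊m * q.2⌋₊ ω
        - ZZ hW m ⌊m * q.1⌋₊ ω * ZZ hW n ⌊n * q.2⌋₊ ω
        + ZZ hW m ⌊m * q.1⌋₊ ω * ZZ hW m ⌊m * q.2⌋₊ ω) := by
      intro ω
      simp only [hΦ]
      ring
    simp only [e1]
    obtain ⟨a1, b1⟩ := ZZ_mul hW n ⌊n * q.1⌋₊ n ⌊n * q.2⌋₊
    obtain ⟨a2, b2⟩ := ZZ_mul hW n ⌊n * q.1⌋₊ m ⌊m * q.2⌋₊
    obtain ⟨a3, b3⟩ := ZZ_mul hW m ⌊m * q.1⌋₊ n ⌊n * q.2⌋₊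
    obtain ⟨a4, b4⟩ := ZZ_mul hW m ⌊m * q.1⌋₊ m ⌊m * q.2⌋₊
    rw [integral_const_mul, int4 a1 a2 a3 a4, b1, b2, b3, b4]
    rfl
  simp only [hQ]
  have hsym := cc_symm hW
  have i1 := tt_int hsym hn hn
  have i2 := tt_int hsym hn hm
  have i3 := tt_int hsym hm hn
  have i4 := tt_int hsym hm hm
  refine (le_abs_self _).trans ?_
  rw [← Real.norm_eq_abs]
  refine (norm_integral_le_of_norm_le ((((i1.add i2).add i3).add i4).const_mul (B ^ 2)) ?_).trans ?_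
  · refine ae_of_all _ fun q => ?_
    rw [Real.norm_eq_abs, abs_mul]
    have h1 : |f q.1 * f q.2| ≤ B ^ 2 := by
      rw [abs_mul, sq]
      exact mul_le_mul (hB _) (hB _) (abs_nonneg _) hB0
    have h2 : |ee n n q - ee n m q - ee m n q + ee m m q| ≤
        |ee n n q - rr q| + |ee n m q - rr q| + |ee m n q - rr q| + |ee m m q - rr q| := by
      have e : ee n n q - ee n m q - ee m n q + ee m m q =
        (ee n n q - rr q) + (-(ee n m q - rr q)) + (-(ee m n q - rr q)) + (ee m m q - rr q) := by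
        ring
      rw [e]
      refine (abs_add_le _ _).trans ?_
      gcongr
      refine (abs_add_le _ _).trans ?_
      rw [abs_neg (ee m n q - rr q)]
      gcongr
      refine (abs_add_le _ _).trans ?_
      rw [abs_neg]
    exact mul_le_mul h1 h2 (abs_nonneg _) (sq_nonneg _)
  · rw [integral_const_mul]
    refine mul_le_mul_of_nonneg_left (le_of_eq ?_) (sq_nonneg _)
    simp only [Pi.add_apply]
    rw [int4' i1 i2 i3 i4]
    rfl

end Chaos

end Pool.Agent.helper95.GMC
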