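import Pool.Agent.helper3.K93Main

/-!
Ranks modulo 2 and 3 of graphs cospectral with `K(9,3)`; levels of rational similarities.
-/

set_option autoImplicit false

open Matrix Finset

namespace Pool.Agent.helper98.K93R

open Pool.Agent.helper3.K93

/-! ### Ranks -/

section rk

variable {n : Type*} [Fintype n] [DecidableEq n]

theorem rank_idem (P : Matrix n n ℚ) (hP : P * P = P) : (P.rank : ℚ) = P.trace := by
  have h1 : IsIdempotentElem (Matrix.toLin' P) := by
    unfold IsIdempotentElem
    rw [Module.End.mul_eq_comp, ← Matrix.toLin'_mul, hP]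
  have h2 := (LinearMap.isProj_range_iff_isIdempotentElem (Matrix.toLin' P)).2 h1
  have h3 := LinearMap.IsProj.trace h2
  rw [Matrix.trace_toLin'_eq] at h3
  rw [h3]
  rfl

theorem rank_add (K : Type*) [Field K] (B : Matrix n n K) :
    (B * B + B).rank + Fintype.card n ≤ B.rank + (B + 1).rank := by
  have h1 : ∀ M : Matrix n n K, M.rank + Module.finrank K (LinearMap.ker M.mulVecLin) =
      Fintype.card n := by
    intro M
    have := LinearMap.finrank_range_add_finrank_ker M.mulVecLin
    rw [Module.finrank_pi] at this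
    exact this
  have h2 : LinearMap.ker B.mulVecLin ⊔ LinearMap.ker (B + 1).mulVecLin ≤
      LinearMap.ker (B * B + B).mulVecLin := by
    refine sup_le ?_ ?_
    · intro x hx
      rw [LinearMap.mem_ker, Matrix.mulVecLin_apply] at hx ⊢
      rw [Matrix.add_mulVec, ← Matrix.mulVec_mulVec, hx]
      simp
    · intro x hx
      rw [LinearMap.mem_ker, Matrix.mulVecLin_apply] at hx ⊢
      have : B * B + B = B * (B + 1) := by rw [mul_add, mul_one]
      rw [this, ← Matrix.mulVec_mulVec, hx]
      simp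
  have h3 : LinearMap.ker B.mulVecLin ⊓ LinearMap.ker (B + 1).mulVecLin = ⊥ := by
    rw [eq_bot_iff]
    rintro x ⟨hx1, hx2⟩
    rw [SetLike.mem_coe, LinearMap.mem_ker, Matrix.mulVecLin_apply] at hx1 hx2
    rw [Matrix.add_mulVec, hx1, zero_add, Matrix.one_mulVec] at hx2
    exact hx2
  have h4 := Submodule.finrank_sup_add_finrank_inf_eq (LinearMap.ker B.mulVecLin)
    (LinearMap.ker (B + 1).mulVecLin)
  rw [h3, finrank_bot, add_zero] at h4
  have h5 := Submodule.finrank_mono h2
  have h6 := h1 B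
  have h7 := h1 (B + 1)
  have h8 := h1 (B * B + B)
  omega

omit [DecidableEq n] in
theorem two_le_rank (K : Type*) [Field K] (M : Matrix n n K) (i j : n)
    (h : M i i * M j j - M i j * M j i ≠ 0) : 2 ≤ M.rank := by
  have h1 := Matrix.rank_submatrix_le M ![i, j] ![i, j]
  have h2 : (M.submatrix ![i, j] ![i, j]).rank = Fintype.card (Fin 2) := by
    apply Matrix.rank_of_det_ne_zero
    rw [Matrix.det_fin_two]
    simpa using h
  rw [h2, Fintype.card_fin] at h1
  exact h1

omit [Fintype n] [DecidableEq n] in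
/-- linear independence modulo `p` implies linear independence over the rationals -/
theorem li_of_mod {ι : Type*} [Fintype ι] (p : ℕ) [Fact p.Prime] (v : ι → n → ℤ)
    (h : LinearIndependent (ZMod p) (fun i => (fun j => ((v i j : ℤ) : ZMod p)))) :
    LinearIndependent ℚ (fun i => (fun j => ((v i j : ℤ) : ℚ))) := by
  have hp : p.Prime := Fact.out
  rw [← LinearIndependent.iff_fractionRing (R := ℤ) (K := ℚ), Fintype.linearIndependent_iff]
  rw [Fintype.linearIndependent_iff] at h
  have key : ∀ k : ℕ, ∀ g : ι → ℤ, (∀ j, ∑ i, g i * v i j = 0) → ∀ i, ((p : ℤ) ^ k) ∣ g i := by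
    intro k
    induction k with
    | zero => intro g _ i; simp
    | succ k ih =>
      intro g hg
      have h1 : ∀ i, ((g i : ℤ) : ZMod p) = 0 := by
        apply h
        funext j
        simp only [Finset.sum_apply, Pi.smul_apply, smul_eq_mul, Pi.zero_apply]
        have := congrArg (fun z : ℤ => (z : ZMod p)) (hg j)
        push_cast at this
        exact this
      have h2 : ∀ i, (p : ℤ) ∣ g i := fun i => (ZMod.intCast_zmod_eq_zero_iff_dvd _ _).1 (h1 i)
      choose f hf using h2
      have h3 : ∀ j, ∑ i, f i * v i j = 0 := by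
        intro j
        have h4 := hg j
        have h5 : ∑ i, g i * v i j = (p : ℤ) * ∑ i, f i * v i j := by
          rw [Finset.mul_sum]
          refine Finset.sum_congr rfl fun i _ => ?_
          rw [hf]
          ring
        rw [h5] at h4
        rcases mul_eq_zero.1 h4 with h6 | h6
        · exact absurd (by exact_mod_cast h6) hp.ne_zero
        · exact h6
      intro i
      rw [hf i, pow_succ']
      exact mul_dvd_mul_left _ (ih f h3 i)
  intro g hg i
  have hg' : ∀ j, ∑ i, g i * v i j = 0 := by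
    intro j
    have := congrFun hg j
    simp only [Finset.sum_apply, Pi.smul_apply, Pi.zero_apply] at this
    simp only [zsmul_eq_mul] at this
    exact_mod_cast this
  by_contra hne
  have h1 := key (g i).natAbs g hg' i
  have h2 : (g i).natAbs < p ^ (g i).natAbs := Nat.lt_pow_self hp.one_lt
  have h3 : p ^ (g i).natAbs ∣ (g i).natAbs := by
    have := Int.natAbs_dvd_natAbs.2 h1
    rwa [Int.natAbs_pow, Int.natAbs_natCast] at this
  have h4 := Nat.le_of_dvd (Int.natAbs_pos.2 hne) h3
  omega

omit [DecidableEq n] in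
theorem rank_mod_le (p : ℕ) [Fact p.Prime] (M : Matrix n n ℤ) :
    (M.map (Int.cast : ℤ → ZMod p)).rank ≤ (M.map (Int.cast : ℤ → ℚ)).rank := by
  rw [Matrix.rank_eq_finrank_span_cols, Matrix.rank_eq_finrank_span_cols]
  obtain ⟨b, hb, hspan, hli⟩ := exists_linearIndependent (ZMod p)
    (Set.range (M.map (Int.cast : ℤ → ZMod p)).col)
  have hfin : b.Finite := (Set.finite_range _).subset hb
  have : Fintype b := hfin.fintype
  choose s hs using fun x : b => hb x.2
  have h1 : LinearIndependent (ZMod p) (fun x : b => (fun j => ((M j (s x) : ℤ) : ZMod p))) := by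
    have h2 : (fun x : b => (fun j => ((M j (s x) : ℤ) : ZMod p))) = fun x : b => (x : n → ZMod p) := by
      funext x
      rw [← hs x]
      rfl
    rw [h2]
    exact hli
  have h2 := li_of_mod p (fun (x : b) j => M j (s x)) h1
  have h3 : Module.finrank (ZMod p)
      (Submodule.span (ZMod p) (Set.range (M.map (Int.cast : ℤ → ZMod p)).col)) = Fintype.card b := by
    rw [← hspan]
    have := finrank_span_eq_card hli
    rw [Subtype.range_coe] at this
    exact this
  rw [h3]
  have h4 := finrank_span_eq_card h2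
  rw [← h4]
  apply Submodule.finrank_mono
  apply Submodule.span_mono
  rintro _ ⟨x, rfl⟩
  exact ⟨s x, rfl⟩

end rk

/-! ### The integral form of the spectral relations -/

section spec

variable {V : Type*} [Fintype V] [DecidableEq V]

/-- the all-one matrix -/
def JR (V R : Type*) [One R] : Matrix V V R := Matrix.of fun _ _ => 1

@[simp] theorem JR_apply {V R : Type*} [One R] (i j : V) : JR V R i j = 1 := rfl

/-- the relations satisfied by the adjacency matrix of `K(9,3)` -/
structure Rel (V : Type*) [Fintype V] [DecidableEq V] (R : Type*) [CommRing R]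
    (A : Matrix V V R) : Prop where
  AJ : A * JR V R = (20 : R) • JR V R
  cub : A * A * A + (7 : R) • (A * A) - (34 : R) • A - (40 : R) • (1 : Matrix V V R) =
    (120 : R) • JR V R

theorem adj_map (G : SimpleGraph V) [DecidableRel G.Adj] (R : Type*) [CommRing R] :
    (Int.castRingHom R).mapMatrix (G.adjMatrix ℤ) = G.adjMatrix R := by
  ext i j
  simp only [RingHom.mapMatrix_apply, Matrix.map_apply, SimpleGraph.adjMatrix_apply]
  split_ifs <;> simp

theorem JR_map (R : Type*) [CommRing R] :
    (Int.castRingHom R).mapMatrix (JR V ℤ) = JR V R := by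
  ext i j
  simp

theorem Rel.of_int (G : SimpleGraph V) [DecidableRel G.Adj] (h : Rel V ℤ (G.adjMatrix ℤ))
    (R : Type*) [CommRing R] : Rel V R (G.adjMatrix R) := by
  constructor
  · have h1 := congrArg (Int.castRingHom R).mapMatrix h.AJ
    rw [map_mul, adj_map, JR_map] at h1
    rw [h1]
    ext i j
    simp only [RingHom.mapMatrix_apply, Matrix.map_apply, Matrix.smul_apply, smul_eq_mul,
      JR_apply, mul_one, map_ofNat]
  · have h1 := congrArg (Int.castRingHom R).mapMatrix h.cub
    have e : ∀ (c : ℤ) (M : Matrix V V ℤ), (Int.castRingHom R).mapMatrix (c • M) =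
        (c : R) • (Int.castRingHom R).mapMatrix M := by
      intro c M
      ext i j
      simp only [RingHom.mapMatrix_apply, Matrix.map_apply, Matrix.smul_apply, smul_eq_mul, map_mul]
      rfl
    simp only [map_sub, map_add, map_mul, e, adj_map, JR_map, map_one] at h1
    exact_mod_cast h1

theorem Rel.to_int (G : SimpleGraph V) [DecidableRel G.Adj] (R : Type*) [CommRing R] [CharZero R]
    (h : Rel V R (G.adjMatrix R)) : Rel V ℤ (G.adjMatrix ℤ) := by
  have hinj : Function.Injective ((Int.castRingHom R).mapMatrix : Matrix V V ℤ → Matrix V V R) := by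
    intro M N hMN
    ext i j
    have := congrFun (congrFun hMN i) j
    simpa using this
  have e : ∀ (c : ℤ) (M : Matrix V V ℤ), (Int.castRingHom R).mapMatrix (c • M) =
      (c : R) • (Int.castRingHom R).mapMatrix M := by
    intro c M
    ext i j
    simp only [RingHom.mapMatrix_apply, Matrix.map_apply, Matrix.smul_apply, smul_eq_mul, map_mul]
    rfl
  constructor
  · apply hinj
    rw [map_mul, e, adj_map, JR_map]
    exact_mod_cast h.AJ
  · apply hinj
    simp only [map_sub, map_add, map_mul, e, adj_map, JR_map, map_one]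
    exact_mod_cast h.cub

theorem rel_int (G : SimpleGraph V) [DecidableRel G.Adj]
    (hc : (G.adjMatrix ℝ).charpoly = (kneser93.adjMatrix ℝ).charpoly) :
    Rel V ℤ (G.adjMatrix ℤ) := by
  obtain ⟨-, h1, h2⟩ := spec G hc
  exact Rel.to_int G ℝ ⟨h1, h2⟩

/-- the matrix of the numbers of common neighbours -/
theorem AA (G : SimpleGraph V) [DecidableRel G.Adj] (R : Type*) [CommRing R] (v w : V) :
    ((G.adjMatrix R) * (G.adjMatrix R)) v w = ((cN G v w : ℤ) : R) := by
  rw [SimpleGraph.adjMatrix_mul_apply]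
  simp only [SimpleGraph.adjMatrix_apply, Finset.sum_boole]
  unfold cN
  push_cast
  congr 2
  ext u
  simp only [Finset.mem_filter, Finset.mem_inter, SimpleGraph.mem_neighborFinset]
  rw [G.adj_comm u w]

variable (G : SimpleGraph V) [DecidableRel G.Adj]

theorem JA (R : Type*) [CommRing R] (h : Rel V R (G.adjMatrix R)) :
    JR V R * G.adjMatrix R = (20 : R) • JR V R := by
  have h1 := congrArg Matrix.transpose h.AJ
  rw [Matrix.transpose_mul, Matrix.transpose_smul, SimpleGraph.transpose_adjMatrix] at h1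
  have h2 : (JR V R)ᵀ = JR V R := rfl
  rw [h2] at h1
  exact h1

/-- The rank of `A + 1` is at most `36`, the rank of `A - 4` at most `57`. -/
theorem rank_Q (D : Dat G) (h : Rel V ℚ (G.adjMatrix ℚ)) (a b c d e : ℚ) (r : ℕ)
    (hc : c ≠ 0)
    (h1 : (G.adjMatrix ℚ + a • (1 : Matrix V V ℚ)) * ((G.adjMatrix ℚ) * (G.adjMatrix ℚ) +
      b • G.adjMatrix ℚ + d • (1 : Matrix V V ℚ) + e • JR V ℚ) = 0)
    (h2 : a ^ 2 - b * a + d = c) (h3 : (20 : ℚ) + a ≠ 0)
    (h4 : 84 * 20 + 84 * d + 84 * e = c * (84 - r)) :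
    (G.adjMatrix ℚ + a • (1 : Matrix V V ℚ)).rank ≤ r ∧
    ((G.adjMatrix ℚ) * (G.adjMatrix ℚ) +
      b • G.adjMatrix ℚ + d • (1 : Matrix V V ℚ) + e • JR V ℚ).rank + r ≤ 84 := by
  set A := G.adjMatrix ℚ with hA
  set P : Matrix V V ℚ := A * A + b • A + d • (1 : Matrix V V ℚ) + e • JR V ℚ with hP
  have hAP : A * P = (-a) • P := by
    have : A * P + a • P = 0 := by
      rw [← h1, add_mul, Matrix.smul_mul, one_mul]
    rw [neg_smul]
    exact eq_neg_of_add_eq_zero_left this
  have hJP : JR V ℚ * P = 0 := by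
    have e1 : JR V ℚ * (A * P) = (20 : ℚ) • (JR V ℚ * P) := by
      rw [← mul_assoc, JA G ℚ h, Matrix.smul_mul]
    rw [hAP, Matrix.mul_smul] at e1
    have e2 : ((20 : ℚ) + a) • (JR V ℚ * P) = 0 := by
      rw [add_smul, ← e1, neg_smul]
      simp
    rcases smul_eq_zero.1 e2 with e3 | e3
    · exact absurd e3 h3
    · exact e3
  have hPP : P * P = c • P := by
    conv_lhs => arg 1; rw [hP]
    rw [add_mul, add_mul, add_mul, Matrix.mul_assoc, hAP, Matrix.mul_smul, hAP, Matrix.smul_mul,
      hAP, Matrix.smul_mul, Matrix.smul_mul, hJP, one_mul, ← h2]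
    module
  set Q : Matrix V V ℚ := 1 - c⁻¹ • P with hQ
  have hPa : P * A = (-a) • P := by
    have hPt : Pᵀ = P := by
      rw [hP]
      simp only [Matrix.transpose_add, Matrix.transpose_smul, Matrix.transpose_mul,
        Matrix.transpose_one, hA, SimpleGraph.transpose_adjMatrix]
      rfl
    have := congrArg Matrix.transpose hAP
    rw [Matrix.transpose_mul, Matrix.transpose_smul, hPt, hA, SimpleGraph.transpose_adjMatrix] at this
    exact this
  have hQQ : Q * Q = Q := by
    rw [hQ]
    simp only [sub_mul, mul_sub, one_mul, mul_one, Matrix.smul_mul, Matrix.mul_smul, hPP, smul_smul]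
    rw [inv_mul_cancel₀ hc]
    module
  have hAQ : (A + a • (1 : Matrix V V ℚ)) * Q = A + a • (1 : Matrix V V ℚ) := by
    rw [hQ, mul_sub, mul_one, Matrix.mul_smul, h1]
    simp
  have hrk : (Q.rank : ℚ) = r := by
    rw [rank_idem Q hQQ, hQ, Matrix.trace_sub, Matrix.trace_smul, Matrix.trace_one, D.card]
    have e1 : P.trace = 84 * 20 + 84 * d + 84 * e := by
      rw [hP, Matrix.trace_add, Matrix.trace_add, Matrix.trace_add, Matrix.trace_smul,
        Matrix.trace_smul, Matrix.trace_smul, Matrix.trace_one, hA, SimpleGraph.trace_adjMatrix,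
        D.card]
      have e2 : (G.adjMatrix ℚ * G.adjMatrix ℚ).trace = 84 * 20 := by
        unfold Matrix.trace
        simp only [Matrix.diag_apply, AA]
        have e3 : ∀ v, cN G v v = 20 := by
          intro v
          unfold cN
          rw [Finset.inter_self]
          exact D.deg v
        simp only [e3, Finset.sum_const, Finset.card_univ, D.card]
        norm_num
      have e4 : (JR V ℚ).trace = 84 := by
        unfold Matrix.trace
        simp only [Matrix.diag_apply, JR_apply, Finset.sum_const, Finset.card_univ, D.card]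
        norm_num
      rw [e2, e4]
      simp only [smul_eq_mul]
      push_cast
      ring
    rw [e1, h4, smul_eq_mul, ← mul_assoc, inv_mul_cancel₀ hc]
    push_cast
    ring
  have hle : (A + a • (1 : Matrix V V ℚ)).rank ≤ Q.rank := by
    rw [← hAQ]
    exact Matrix.rank_mul_le_right _ _
  have hQr : Q.rank = r := by exact_mod_cast hrk
  refine ⟨by omega, ?_⟩
  have hEE : (c⁻¹ • P) * (c⁻¹ • P) = c⁻¹ • P := by
    simp only [Matrix.smul_mul, Matrix.mul_smul, hPP, smul_smul]
    rw [inv_mul_cancel₀ hc, mul_one]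
  have hE1 := rank_idem (c⁻¹ • P) hEE
  have hE2 : (c⁻¹ • P).trace + Q.trace = 84 := by
    rw [hQ, Matrix.trace_sub, Matrix.trace_one, D.card]
    push_cast
    ring
  rw [← hE1, ← rank_idem Q hQQ, hQr] at hE2
  have hE3 : (c⁻¹ • P).rank + r = 84 := by exact_mod_cast hE2
  have hE4 : P = (c • (1 : Matrix V V ℚ)) * (c⁻¹ • P) := by
    rw [Matrix.smul_mul, one_mul, smul_smul, mul_inv_cancel₀ hc, one_smul]
  have hE5 : P.rank ≤ (c⁻¹ • P).rank := by
    conv_lhs => rw [hE4]
    exact Matrix.rank_mul_le_right _ _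
  omega

theorem rank_A1 (D : Dat G) (h : Rel V ℚ (G.adjMatrix ℚ)) :
    (G.adjMatrix ℚ + (1 : ℚ) • (1 : Matrix V V ℚ)).rank ≤ 36 ∧
    ((G.adjMatrix ℚ) * (G.adjMatrix ℚ) + (6 : ℚ) • G.adjMatrix ℚ +
      (-40 : ℚ) • (1 : Matrix V V ℚ) + (-40 / 7 : ℚ) • JR V ℚ).rank + 36 ≤ 84 := by
  apply rank_Q G D h 1 6 (-45) (-40) (-40 / 7) 36 (by norm_num) _ (by norm_num) (by norm_num)
    (by norm_num)
  have h5 : G.adjMatrix ℚ * G.adjMatrix ℚ * G.adjMatrix ℚ = (120 : ℚ) • JR V ℚ -
      (7 : ℚ) • (G.adjMatrix ℚ * G.adjMatrix ℚ) + (34 : ℚ) • G.adjMatrix ℚ +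
      (40 : ℚ) • (1 : Matrix V V ℚ) := by
    rw [← h.cub]
    module
  simp only [add_mul, mul_add, Matrix.mul_smul, Matrix.smul_mul, mul_one, one_mul, h.AJ,
    ← mul_assoc, h5]
  module

theorem rank_A4 (D : Dat G) (h : Rel V ℚ (G.adjMatrix ℚ)) :
    (G.adjMatrix ℚ + (-4 : ℚ) • (1 : Matrix V V ℚ)).rank ≤ 57 ∧
    ((G.adjMatrix ℚ) * (G.adjMatrix ℚ) + (11 : ℚ) • G.adjMatrix ℚ +
      (10 : ℚ) • (1 : Matrix V V ℚ) + (-15 / 2 : ℚ) • JR V ℚ).rank + 57 ≤ 84 := by
  apply rank_Q G D h (-4) 11 70 10 (-15 / 2) 57 (by norm_num) _ (by norm_num) (by norm_num)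
    (by norm_num)
  have h5 : G.adjMatrix ℚ * G.adjMatrix ℚ * G.adjMatrix ℚ = (120 : ℚ) • JR V ℚ -
      (7 : ℚ) • (G.adjMatrix ℚ * G.adjMatrix ℚ) + (34 : ℚ) • G.adjMatrix ℚ +
      (40 : ℚ) • (1 : Matrix V V ℚ) := by
    rw [← h.cub]
    module
  simp only [add_mul, mul_add, Matrix.mul_smul, Matrix.smul_mul, mul_one, one_mul, h.AJ,
    ← mul_assoc, h5]
  module

omit [Fintype V] in
theorem map_adj (R : Type*) [CommRing R] (k : ℤ) :
    (G.adjMatrix ℤ + k • (1 : Matrix V V ℤ)).map (Int.cast : ℤ → R) =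
      G.adjMatrix R + (k : R) • (1 : Matrix V V R) := by
  ext i j
  simp only [Matrix.map_apply, Matrix.add_apply, Matrix.smul_apply, smul_eq_mul,
    SimpleGraph.adjMatrix_apply, Matrix.one_apply]
  push_cast
  rfl

theorem rank2_bound (D : Dat G) (h : Rel V ℤ (G.adjMatrix ℤ)) :
    (G.adjMatrix (ZMod 2) + 1).rank ≤ 36 := by
  have h1 := rank_mod_le 2 (G.adjMatrix ℤ + (1 : ℤ) • (1 : Matrix V V ℤ))
  rw [map_adj, map_adj] at h1
  have h2 := (rank_A1 G D (Rel.of_int G h ℚ)).1
  push_cast at h1
  rw [one_smul] at h1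
  exact h1.trans h2

theorem rank3_bound (D : Dat G) (h : Rel V ℤ (G.adjMatrix ℤ)) :
    ((G.adjMatrix (ZMod 3) + 1) + 1).rank ≤ 57 := by
  have h1 := rank_mod_le 3 (G.adjMatrix ℤ + (-4 : ℤ) • (1 : Matrix V V ℤ))
  rw [map_adj, map_adj] at h1
  have h2 := (rank_A4 G D (Rel.of_int G h ℚ)).1
  have h3 : G.adjMatrix (ZMod 3) + (((-4 : ℤ) : ZMod 3)) • (1 : Matrix V V (ZMod 3)) =
      (G.adjMatrix (ZMod 3) + 1) + 1 := by
    have e : (((-4 : ℤ) : ZMod 3)) = 1 + 1 := by decide
    rw [e, add_smul, one_smul, add_assoc]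
  rw [h3] at h1
  push_cast at h1
  exact h1.trans h2

theorem tri_of_cN (hN : ∀ v w, G.Adj v w → cN G v w ≠ 0) :
    ∀ v w, G.Adj v w → ∃ u, G.Adj u v ∧ G.Adj u w := by
  intro v w hvw
  have h1 := hN v w hvw
  unfold cN at h1
  have h2 : (G.neighborFinset v ∩ G.neighborFinset w).card ≠ 0 := by exact_mod_cast h1
  obtain ⟨u, hu⟩ := Finset.card_pos.1 (Nat.pos_of_ne_zero h2)
  rw [Finset.mem_inter, SimpleGraph.mem_neighborFinset, SimpleGraph.mem_neighborFinset] at hu
  exact ⟨u, hu.1.symm, hu.2.symm⟩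

theorem iso_of_rank2 (hc : (G.adjMatrix ℝ).charpoly = (kneser93.adjMatrix ℝ).charpoly)
    (hr : (G.adjMatrix (ZMod 2)).rank ≤ 49) : Nonempty (G ≃g kneser93) := by
  have D := dat G hc
  have h := rel_int G hc
  apply main G hc
  apply tri_of_cN
  intro v w hvw h0
  have h1 := rank_add (ZMod 2) (G.adjMatrix (ZMod 2))
  have h2 := rank2_bound G D h
  rw [D.card] at h1
  have h3 := two_le_rank (ZMod 2) (G.adjMatrix (ZMod 2) * G.adjMatrix (ZMod 2) +
    G.adjMatrix (ZMod 2)) v w (by
      have e1 : cN G v v = 20 := by unfold cN; rw [Finset.inter_self]; exact D.deg v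
      have e2 : cN G w w = 20 := by unfold cN; rw [Finset.inter_self]; exact D.deg w
      have e3 : cN G w v = 0 := by rw [← h0]; unfold cN; rw [Finset.inter_comm]
      simp only [Matrix.add_apply, AA, e1, e2, e3, h0, SimpleGraph.adjMatrix_apply, hvw,
        hvw.symm, SimpleGraph.irrefl, if_true, if_false]
      decide)
  omega

theorem iso_of_rank3 (hc : (G.adjMatrix ℝ).charpoly = (kneser93.adjMatrix ℝ).charpoly)
    (hr : (G.adjMatrix (ZMod 3) + 1).rank ≤ 28) : Nonempty (G ≃g kneser93) := by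
  have D := dat G hc
  have h := rel_int G hc
  apply main G hc
  apply tri_of_cN
  intro v w hvw h0
  have h1 := rank_add (ZMod 3) (G.adjMatrix (ZMod 3) + 1)
  have h2 := rank3_bound G D h
  rw [D.card] at h1
  have h3 := two_le_rank (ZMod 3) ((G.adjMatrix (ZMod 3) + 1) * (G.adjMatrix (ZMod 3) + 1) +
    (G.adjMatrix (ZMod 3) + 1)) v w (by
      have e1 : cN G v v = 20 := by unfold cN; rw [Finset.inter_self]; exact D.deg v
      have e2 : cN G w w = 20 := by unfold cN; rw [Finset.inter_self]; exact D.deg w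
      have e3 : cN G w v = 0 := by rw [← h0]; unfold cN; rw [Finset.inter_comm]
      have hne : v ≠ w := hvw.ne
      simp only [add_mul, mul_add, mul_one, one_mul, Matrix.add_apply, AA, e1, e2, e3, h0,
        SimpleGraph.adjMatrix_apply, hvw, hvw.symm, SimpleGraph.irrefl, if_true, if_false,
        Matrix.one_apply_eq, Matrix.one_apply_ne hne, Matrix.one_apply_ne hne.symm]
      decide)
  omega

end spec

end Pool.Agent.helper98.K93R
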