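import Pool.Agent.helper98.K93R

/-!
Ranks modulo 2 and 3 of `K(9,3)`, rational similarities, chains of similarities.
-/

set_option autoImplicit false

open Matrix Finset

namespace Pool.Agent.helper98.K93R

open Pool.Agent.helper3.K93

/-! ### The Kneser graph itself -/

theorem cN_kneser (s t : Tri) : cN kneser93 s t =
    3 * (if kneser93.Adj s t then 1 else 0) + 4 * (if s = t then 1 else 0) +
      6 * ((s.1 ∩ t.1).card : ℤ) - 2 := by
  have h1 := congrFun (congrFun KK_eq s) t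
  have h2 := AA kneser93 ℝ s t
  have h3 : KM * KM = kneser93.adjMatrix ℝ * kneser93.adjMatrix ℝ := rfl
  rw [h3, h2] at h1
  simp only [Matrix.add_apply, Matrix.sub_apply, Matrix.smul_apply, smul_eq_mul, IM_apply,
    JM_apply, mul_one, SimpleGraph.adjMatrix_apply, Matrix.one_apply] at h1
  have h4 : ((cN kneser93 s t : ℤ) : ℝ) = ((3 * (if kneser93.Adj s t then 1 else 0) +
      4 * (if s = t then 1 else 0) + 6 * ((s.1 ∩ t.1).card : ℤ) - 2 : ℤ) : ℝ) := by
    rw [h1]
    push_cast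
    rfl
  exact_mod_cast h4

theorem rank_smul_le {n : Type*} [Fintype n] [DecidableEq n] (K : Type*) [Field K] (c : K)
    (M : Matrix n n K) : (c • M).rank ≤ M.rank := by
  have h : c • M = (c • (1 : Matrix n n K)) * M := by rw [Matrix.smul_mul, one_mul]
  rw [h]
  exact Matrix.rank_mul_le_right _ _

theorem rank_add_one_le {n : Type*} [Fintype n] [DecidableEq n] (K : Type*) [Field K]
    (M N : Matrix n n K) : (M + N).rank ≤ M.rank + N.rank := by
  have h1 : (M + N).mulVecLin = M.mulVecLin + N.mulVecLin := Matrix.mulVecLin_add M N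
  unfold Matrix.rank
  rw [h1]
  refine (Submodule.finrank_mono (LinearMap.range_add_le _ _)).trans ?_
  exact Submodule.finrank_add_le_finrank_add_finrank _ _

theorem rank_JR {n : Type*} [Fintype n] [DecidableEq n] (K : Type*) [Field K] :
    (JR n K).rank ≤ 1 := by
  have h : JR n K = Matrix.vecMulVec (fun _ => 1) (fun _ => 1) := by
    ext i j
    simp [Matrix.vecMulVec_apply]
  rw [h]
  exact Matrix.rank_vecMulVec_le _ _

theorem spec_kneser : (kneser93.adjMatrix ℝ).charpoly = (kneser93.adjMatrix ℝ).charpoly := rfl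

theorem rank2_kneser : (kneser93.adjMatrix (ZMod 2)).rank ≤ 48 := by
  have D := dat kneser93 rfl
  have h := rel_int kneser93 rfl
  have hQ := (rank_A1 kneser93 D (Rel.of_int kneser93 h ℚ)).2
  set A := kneser93.adjMatrix ℤ with hA
  set M : Matrix Tri Tri ℤ := (7 : ℤ) • (A * A) + (42 : ℤ) • A + (-280 : ℤ) • (1 : Matrix Tri Tri ℤ) +
    (-40 : ℤ) • JR Tri ℤ with hM
  have h1 : M.map (Int.cast : ℤ → ℚ) = (7 : ℚ) • (kneser93.adjMatrix ℚ * kneser93.adjMatrix ℚ +
      (6 : ℚ) • kneser93.adjMatrix ℚ + (-40 : ℚ) • (1 : Matrix Tri Tri ℚ) +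
        (-40 / 7 : ℚ) • JR Tri ℚ) := by
    ext s t
    rw [hM]
    simp only [Matrix.map_apply, Matrix.add_apply, Matrix.smul_apply, smul_eq_mul, hA, AA,
      SimpleGraph.adjMatrix_apply, Matrix.one_apply, JR_apply]
    push_cast
    ring
  have h2 : M.map (Int.cast : ℤ → ZMod 2) = kneser93.adjMatrix (ZMod 2) := by
    ext s t
    rw [hM]
    simp only [Matrix.map_apply, Matrix.add_apply, Matrix.smul_apply, smul_eq_mul, hA, AA,
      SimpleGraph.adjMatrix_apply, Matrix.one_apply, JR_apply, cN_kneser]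
    push_cast
    have e1 : (7 : ZMod 2) = 1 := by decide
    have e2 : (42 : ZMod 2) = 0 := by decide
    have e3 : (280 : ZMod 2) = 0 := by decide
    have e4 : (40 : ZMod 2) = 0 := by decide
    have e5 : (3 : ZMod 2) = 1 := by decide
    have e6 : (4 : ZMod 2) = 0 := by decide
    have e7 : (6 : ZMod 2) = 0 := by decide
    have e8 : (2 : ZMod 2) = 0 := by decide
    rw [e1, e2, e3, e4, e5, e6, e7, e8]
    simp
  have h3 := rank_mod_le 2 M
  rw [h1, h2] at h3
  have h4 := rank_smul_le ℚ (7 : ℚ) (kneser93.adjMatrix ℚ * kneser93.adjMatrix ℚ +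
      (6 : ℚ) • kneser93.adjMatrix ℚ + (-40 : ℚ) • (1 : Matrix Tri Tri ℚ) +
        (-40 / 7 : ℚ) • JR Tri ℚ)
  omega

theorem rank3_kneser : (kneser93.adjMatrix (ZMod 3) + 1).rank ≤ 28 := by
  have D := dat kneser93 rfl
  have h := rel_int kneser93 rfl
  have hQ := (rank_A4 kneser93 D (Rel.of_int kneser93 h ℚ)).2
  set A := kneser93.adjMatrix ℤ with hA
  set M : Matrix Tri Tri ℤ := (2 : ℤ) • (A * A) + (22 : ℤ) • A + (20 : ℤ) • (1 : Matrix Tri Tri ℤ) +
    (-15 : ℤ) • JR Tri ℤ with hM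
  have h1 : M.map (Int.cast : ℤ → ℚ) = (2 : ℚ) • (kneser93.adjMatrix ℚ * kneser93.adjMatrix ℚ +
      (11 : ℚ) • kneser93.adjMatrix ℚ + (10 : ℚ) • (1 : Matrix Tri Tri ℚ) +
        (-15 / 2 : ℚ) • JR Tri ℚ) := by
    ext s t
    rw [hM]
    simp only [Matrix.map_apply, Matrix.add_apply, Matrix.smul_apply, smul_eq_mul, hA, AA,
      SimpleGraph.adjMatrix_apply, Matrix.one_apply, JR_apply]
    push_cast
    ring
  have h2 : kneser93.adjMatrix (ZMod 3) + 1 = M.map (Int.cast : ℤ → ZMod 3) + JR Tri (ZMod 3) := by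
    ext s t
    rw [hM]
    simp only [Matrix.map_apply, Matrix.add_apply, Matrix.smul_apply, smul_eq_mul, hA, AA,
      SimpleGraph.adjMatrix_apply, Matrix.one_apply, JR_apply, cN_kneser]
    push_cast
    have e1 : (22 : ZMod 3) = 1 := by decide
    have e2 : (20 : ZMod 3) = 2 := by decide
    have e3 : (15 : ZMod 3) = 0 := by decide
    have e4 : (4 : ZMod 3) = 1 := by decide
    have e5 : (3 : ZMod 3) = 0 := by decide
    have e6 : (6 : ZMod 3) = 0 := by decide
    rw [e1, e2, e3, e4, e5, e6]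
    generalize (if kneser93.Adj s t then (1 : ZMod 3) else 0) = x
    generalize (if s = t then (1 : ZMod 3) else 0) = y
    generalize ((((s.1 ∩ t.1).card : ℕ)) : ZMod 3) = u
    revert x y u
    decide
  have h3 := rank_mod_le 3 M
  rw [h1] at h3
  have h4 := rank_smul_le ℚ (2 : ℚ) (kneser93.adjMatrix ℚ * kneser93.adjMatrix ℚ +
      (11 : ℚ) • kneser93.adjMatrix ℚ + (10 : ℚ) • (1 : Matrix Tri Tri ℚ) +
        (-15 / 2 : ℚ) • JR Tri ℚ)
  have h5 := rank_add_one_le (ZMod 3) (M.map (Int.cast : ℤ → ZMod 3)) (JR Tri (ZMod 3))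
  have h6 := rank_JR (n := Tri) (ZMod 3)
  rw [h2]
  omega

end Pool.Agent.helper98.K93R
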