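import Pool.Agent.helper98.K93S

/-!
Rational similarities of level not divisible by 6 and the Kneser graph `K(9,3)`.
-/

set_option autoImplicit false

open Matrix Finset

namespace Pool.Agent.helper98.K93R

open Pool.Agent.helper3.K93

open Classical in
/-- `Sim G H`: the graph `H` arises from the graph `G` (on the same vertices) by a rational
similarity of level not divisible by `6`: for some integer `l`, not divisible by `6`, there are
integer matrices `Q`, `R` with `Q R = l² I` and `R A_G Q = l² A_H`. So `P = Q / l` is an invertible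
rational matrix with `P⁻¹ A_G P = A_H`, and `l P`, `l P⁻¹` are integer matrices. -/
def Sim {V : Type*} [Fintype V] [DecidableEq V] (G H : SimpleGraph V) : Prop :=
  ∃ (l : ℤ) (Q R : Matrix V V ℤ), ¬ (6 : ℤ) ∣ l ∧ Q * R = l ^ 2 • (1 : Matrix V V ℤ) ∧
    R * G.adjMatrix ℤ * Q = l ^ 2 • H.adjMatrix ℤ

section sim

variable {V : Type*} [Fintype V] [DecidableEq V]

theorem charpoly_iso {W : Type*} [Fintype W] [DecidableEq W] (G : SimpleGraph V)
    (K : SimpleGraph W) [DecidableRel G.Adj] [DecidableRel K.Adj] (e : G ≃g K) :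
    (G.adjMatrix ℝ).charpoly = (K.adjMatrix ℝ).charpoly := by
  have h : K.adjMatrix ℝ = Matrix.reindex e.toEquiv e.toEquiv (G.adjMatrix ℝ) := by
    ext i j
    simp only [Matrix.reindex_apply, Matrix.submatrix_apply, SimpleGraph.adjMatrix_apply]
    have := e.map_rel_iff (a := e.symm i) (b := e.symm j)
    have h1 : e (e.symm i) = i := e.apply_symm_apply i
    have h2 : e (e.symm j) = j := e.apply_symm_apply j
    rw [h1, h2] at this
    have h3 : (G.Adj (e.toEquiv.symm i) (e.toEquiv.symm j)) ↔ K.Adj i j := this.symm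
    simp only [h3]
  rw [h, Matrix.charpoly_reindex]

theorem rank_iso {W : Type*} [Fintype W] [DecidableEq W] (G : SimpleGraph V)
    (K : SimpleGraph W) [DecidableRel G.Adj] [DecidableRel K.Adj] (e : G ≃g K)
    (F : Type*) [Field F] (c : F) :
    (G.adjMatrix F + c • (1 : Matrix V V F)).rank = (K.adjMatrix F + c • (1 : Matrix W W F)).rank := by
  have h : K.adjMatrix F + c • (1 : Matrix W W F) =
      (G.adjMatrix F + c • (1 : Matrix V V F)).submatrix e.toEquiv.symm e.toEquiv.symm := by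
    ext i j
    simp only [Matrix.submatrix_apply, Matrix.add_apply, Matrix.smul_apply,
      SimpleGraph.adjMatrix_apply, Matrix.one_apply]
    have := e.map_rel_iff (a := e.symm i) (b := e.symm j)
    have h1 : e (e.symm i) = i := e.apply_symm_apply i
    have h2 : e (e.symm j) = j := e.apply_symm_apply j
    rw [h1, h2] at this
    have h3 : (G.Adj (e.toEquiv.symm i) (e.toEquiv.symm j)) ↔ K.Adj i j := this.symm
    simp only [h3, EmbeddingLike.apply_eq_iff_eq]
  rw [h, Matrix.rank_submatrix]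

/-- similar over the rationals, so cospectral -/
theorem sim_charpoly (G H : SimpleGraph V) [DecidableRel G.Adj] [DecidableRel H.Adj]
    (l : ℤ) (hl : l ≠ 0) (Q R : Matrix V V ℤ) (h1 : Q * R = l ^ 2 • (1 : Matrix V V ℤ))
    (h2 : R * G.adjMatrix ℤ * Q = l ^ 2 • H.adjMatrix ℤ) :
    (H.adjMatrix ℝ).charpoly = (G.adjMatrix ℝ).charpoly := by
  have e : ∀ (c : ℤ) (M : Matrix V V ℤ), (Int.castRingHom ℝ).mapMatrix (c • M) =
      (c : ℝ) • (Int.castRingHom ℝ).mapMatrix M := by
    intro c M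
    ext i j
    simp only [RingHom.mapMatrix_apply, Matrix.map_apply, Matrix.smul_apply, smul_eq_mul, map_mul]
    rfl
  have g1 := congrArg (Int.castRingHom ℝ).mapMatrix h1
  have g2 := congrArg (Int.castRingHom ℝ).mapMatrix h2
  rw [map_mul, e, map_one] at g1
  rw [map_mul, map_mul, e, adj_map, adj_map] at g2
  set Q' := (Int.castRingHom ℝ).mapMatrix Q
  set R' := (Int.castRingHom ℝ).mapMatrix R
  have hl2 : ((l ^ 2 : ℤ) : ℝ) ≠ 0 := by
    have : (l : ℤ) ^ 2 ≠ 0 := pow_ne_zero 2 hl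
    exact_mod_cast this
  have g3 : H.adjMatrix ℝ = ((((l ^ 2 : ℤ) : ℝ))⁻¹ • R') * (G.adjMatrix ℝ * Q') := by
    rw [Matrix.smul_mul, ← mul_assoc, g2, smul_smul, inv_mul_cancel₀ hl2, one_smul]
  rw [g3, Matrix.charpoly_mul_comm, mul_assoc, Matrix.mul_smul, g1, smul_smul,
    inv_mul_cancel₀ hl2, one_smul, mul_one]

/-- ranks modulo a prime not dividing the level -/
theorem sim_rank (G H : SimpleGraph V) [DecidableRel G.Adj] [DecidableRel H.Adj]
    (p : ℕ) [Fact p.Prime] (l : ℤ) (hl : ¬ (p : ℤ) ∣ l) (Q R : Matrix V V ℤ)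
    (h1 : Q * R = l ^ 2 • (1 : Matrix V V ℤ))
    (h2 : R * G.adjMatrix ℤ * Q = l ^ 2 • H.adjMatrix ℤ) (c : ZMod p) :
    (H.adjMatrix (ZMod p) + c • (1 : Matrix V V (ZMod p))).rank ≤
      (G.adjMatrix (ZMod p) + c • (1 : Matrix V V (ZMod p))).rank := by
  have e : ∀ (c : ℤ) (M : Matrix V V ℤ), (Int.castRingHom (ZMod p)).mapMatrix (c • M) =
      (c : ZMod p) • (Int.castRingHom (ZMod p)).mapMatrix M := by
    intro c M
    ext i j
    simp only [RingHom.mapMatrix_apply, Matrix.map_apply, Matrix.smul_apply, smul_eq_mul, map_mul]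
    rfl
  have g1 := congrArg (Int.castRingHom (ZMod p)).mapMatrix h1
  have g2 := congrArg (Int.castRingHom (ZMod p)).mapMatrix h2
  rw [map_mul, e, map_one] at g1
  rw [map_mul, map_mul, e, adj_map, adj_map] at g2
  set Q' := (Int.castRingHom (ZMod p)).mapMatrix Q
  set R' := (Int.castRingHom (ZMod p)).mapMatrix R
  have hl1 : (l : ZMod p) ≠ 0 := fun h => hl ((ZMod.intCast_zmod_eq_zero_iff_dvd _ _).1 h)
  have hl2 : ((l ^ 2 : ℤ) : ZMod p) ≠ 0 := by
    push_cast
    exact pow_ne_zero 2 hl1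
  set d := ((l ^ 2 : ℤ) : ZMod p)
  have g4 : R' * Q' = d • (1 : Matrix V V (ZMod p)) := by
    have k1 : Q' * (d⁻¹ • R') = 1 := by
      rw [Matrix.mul_smul, g1, smul_smul, inv_mul_cancel₀ hl2, one_smul]
    have k2 := mul_eq_one_comm.1 k1
    rw [Matrix.smul_mul] at k2
    rw [← k2, smul_smul, mul_inv_cancel₀ hl2, one_smul]
  have g3 : H.adjMatrix (ZMod p) + c • (1 : Matrix V V (ZMod p)) =
      (d⁻¹ • R') * ((G.adjMatrix (ZMod p) + c • (1 : Matrix V V (ZMod p))) * Q') := by
    rw [Matrix.smul_mul, ← mul_assoc, mul_add, add_mul, g2, Matrix.mul_smul, mul_one,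
      Matrix.smul_mul, g4, smul_add, smul_smul, smul_smul, smul_smul, inv_mul_cancel₀ hl2, one_smul,
      mul_right_comm, inv_mul_cancel₀ hl2, one_mul]
  rw [g3]
  exact (Matrix.rank_mul_le_right _ _).trans (Matrix.rank_mul_le_left _ _)

theorem sim_iso (G H : SimpleGraph V) (hGH : Sim G H) (hG : Nonempty (G ≃g kneser93)) :
    Nonempty (H ≃g kneser93) := by
  classical
  obtain ⟨l, Q, R, h6, h1, h2⟩ := hGH
  obtain ⟨e⟩ := hG
  have hl : l ≠ 0 := by
    rintro rfl
    exact h6 (dvd_zero 6)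
  have hc : (H.adjMatrix ℝ).charpoly = (kneser93.adjMatrix ℝ).charpoly := by
    rw [sim_charpoly G H l hl Q R h1 h2]
    exact charpoly_iso G kneser93 e
  have h23 : ¬ ((2 : ℕ) : ℤ) ∣ l ∨ ¬ ((3 : ℕ) : ℤ) ∣ l := by
    by_contra hcon
    push Not at hcon
    obtain ⟨k1, k2⟩ := hcon
    apply h6
    push_cast at k1 k2
    omega
  rcases h23 with hp | hp
  · have : Fact (Nat.Prime 2) := ⟨Nat.prime_two⟩
    have h3 := sim_rank G H 2 l hp Q R h1 h2 0
    rw [rank_iso G kneser93 e (ZMod 2) 0, zero_smul, zero_smul, add_zero, add_zero] at h3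
    exact iso_of_rank2 H hc ((h3.trans rank2_kneser).trans (by norm_num))
  · have : Fact (Nat.Prime 3) := ⟨Nat.prime_three⟩
    have h3 := sim_rank G H 3 l hp Q R h1 h2 1
    rw [rank_iso G kneser93 e (ZMod 3) 1, one_smul, one_smul] at h3
    exact iso_of_rank3 H hc (h3.trans rank3_kneser)

theorem chain_iso (K G : SimpleGraph V) (hK : Nonempty (K ≃g kneser93))
    (h : Relation.ReflTransGen Sim K G) : Nonempty (G ≃g kneser93) := by
  induction h with
  | refl => exact hK
  | tail _ h2 ih => exact sim_iso _ _ h2 ih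

theorem main_tfae (G : SimpleGraph V) [DecidableRel G.Adj]
    (hc : (G.adjMatrix ℝ).charpoly = (kneser93.adjMatrix ℝ).charpoly) :
    List.TFAE [Nonempty (G ≃g kneser93),
      (G.adjMatrix (ZMod 2)).rank ≤ 49,
      (G.adjMatrix (ZMod 3) + 1).rank ≤ 28,
      ∃ K : SimpleGraph V, Nonempty (K ≃g kneser93) ∧ Relation.ReflTransGen Sim K G] := by
  tfae_have 1 → 2 := by
    rintro ⟨e⟩
    have h3 := rank_iso G kneser93 e (ZMod 2) 0
    rw [zero_smul, zero_smul, add_zero, add_zero] at h3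
    rw [h3]
    exact rank2_kneser.trans (by norm_num)
  tfae_have 1 → 3 := by
    rintro ⟨e⟩
    have h3 := rank_iso G kneser93 e (ZMod 3) 1
    rw [one_smul, one_smul] at h3
    rw [h3]
    exact rank3_kneser
  tfae_have 1 → 4 := fun h => ⟨G, h, Relation.ReflTransGen.refl⟩
  tfae_have 2 → 1 := iso_of_rank2 G hc
  tfae_have 3 → 1 := iso_of_rank3 G hc
  tfae_have 4 → 1 := by
    rintro ⟨K, hK, h⟩
    exact chain_iso K G hK h
  tfae_finish

end sim

end Pool.Agent.helper98.K93R
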