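import Pool.Agent.helper98.K93T

/-!
Godsil-McKay switching as a rational similarity, and the final equivalence for `K(9,3)`.
-/

set_option autoImplicit false

open Matrix Finset

namespace Pool.Agent.helper98.K93R

open Pool.Agent.helper3.K93

open Classical in
/-- the number of neighbours of `v` in `D` -/
noncomputable def cnt {V : Type*} (G : SimpleGraph V) (D : Finset V) (v : V) : ℕ :=
  (D.filter (fun d => G.Adj v d)).card

/-- `H` arises from `G` by Godsil-McKay switching with respect to the set `D` of `2 m` vertices: `D`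
induces a regular graph, every vertex outside `D` has `0`, `m` or `2 m` neighbours in `D`, and `H` is
obtained by exchanging, for every vertex outside `D` with exactly `m` neighbours in `D`, its
neighbours and its non-neighbours in `D`. -/
structure GMS {V : Type*} (G H : SimpleGraph V) (D : Finset V) (m : ℕ) : Prop where
  card : D.card = 2 * m
  reg : ∃ k : ℕ, ∀ v ∈ D, cnt G D v = k
  out : ∀ v, v ∉ D → cnt G D v = 0 ∨ cnt G D v = m ∨ cnt G D v = 2 * m
  same : ∀ v w, ¬ (v ∈ D ∧ w ∉ D ∧ cnt G D w = m) → ¬ (w ∈ D ∧ v ∉ D ∧ cnt G D v = m) →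
    (H.Adj v w ↔ G.Adj v w)
  flip : ∀ v w, v ∈ D → w ∉ D → cnt G D w = m → (H.Adj v w ↔ ¬ G.Adj v w)

/-- `H` arises from `G` by Godsil-McKay switching with respect to some set of vertices whose size is
not divisible by `12`. -/
def GMstep {V : Type*} (G H : SimpleGraph V) : Prop :=
  ∃ (D : Finset V) (m : ℕ), GMS G H D m ∧ ¬ 12 ∣ D.card

section gm

variable {V : Type*} [Fintype V] [DecidableEq V]

theorem gm_sim (G H : SimpleGraph V) (h : GMstep G H) : Sim G H := by
  classical
  obtain ⟨D, m, hD, h12⟩ := h
  obtain ⟨k, hk⟩ := hD.reg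
  obtain ⟨d, hd⟩ : ∃ d : V → ℤ, d = fun i => if i ∈ D then 1 else 0 := ⟨_, rfl⟩
  obtain ⟨e, he⟩ : ∃ e : V → ℤ, e = fun i => if i ∈ D then -(m : ℤ) else m := ⟨_, rfl⟩
  obtain ⟨Q, hQ⟩ : ∃ Q : Matrix V V ℤ, Q = Matrix.of fun i j =>
      d i * d j + if i = j then e i else 0 := ⟨_, rfl⟩
  have hQM : ∀ (M : Matrix V V ℤ) (i j : V), (Q * M) i j = d i * (∑ k, d k * M k j) + e i * M i j := by
    intro M i j
    rw [Matrix.mul_apply, hQ]
    simp only [Matrix.of_apply, add_mul, ite_mul, zero_mul, Finset.sum_add_distrib,
      Finset.sum_ite_eq, Finset.mem_univ, if_true, Finset.mul_sum, mul_assoc]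
  have hMQ : ∀ (M : Matrix V V ℤ) (i j : V), (M * Q) i j = (∑ k, M i k * d k) * d j + M i j * e j := by
    intro M i j
    rw [Matrix.mul_apply, hQ]
    simp only [Matrix.of_apply, mul_add, mul_ite, mul_zero, Finset.sum_add_distrib,
      Finset.sum_ite_eq', Finset.mem_univ, if_true, Finset.sum_mul, mul_assoc]
  have hdd : ∑ k, d k * d k = 2 * m := by
    rw [hd]
    simp only [mul_ite, mul_one, mul_zero]
    have : ∀ x : V, (if x ∈ D then (if x ∈ D then (1 : ℤ) else 0) else 0) =
        if x ∈ D then 1 else 0 := by
      intro x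
      split_ifs <;> rfl
    simp only [this, Finset.sum_boole]
    rw [Finset.filter_univ_mem, hD.card]
    push_cast
    ring
  have hcnt : ∀ v, ∑ k, G.adjMatrix ℤ v k * d k = cnt G D v := by
    intro v
    rw [hd]
    simp only [SimpleGraph.adjMatrix_apply, mul_ite, mul_one, mul_zero]
    have : ∀ x : V, (if x ∈ D then (if G.Adj v x then (1 : ℤ) else 0) else 0) =
        if x ∈ D ∧ G.Adj v x then 1 else 0 := by
      intro x
      split_ifs <;> simp_all
    simp only [this, Finset.sum_boole]
    unfold cnt
    congr 2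
    ext x
    simp
  have hcnt' : ∀ v, ∑ k, d k * G.adjMatrix ℤ k v = cnt G D v := by
    intro v
    rw [← hcnt]
    refine Finset.sum_congr rfl fun k _ => ?_
    rw [mul_comm]
    congr 1
    simp only [SimpleGraph.adjMatrix_apply, G.adj_comm]
  have hcd : ∑ v, (cnt G D v : ℤ) * d v = 2 * m * k := by
    have h1 : ∀ v, (cnt G D v : ℤ) * d v = (k : ℤ) * (d v * d v) := by
      intro v
      rw [hd]
      by_cases hv : v ∈ D
      · simp [hv, hk v hv]
      · simp [hv]
    simp only [h1]
    rw [← Finset.mul_sum, hdd]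
    ring
  refine ⟨m, Q, Q, ?_, ?_, ?_⟩
  · intro h6
    apply h12
    rw [hD.card]
    have : 6 ∣ m := by exact_mod_cast h6
    omega
  · ext i j
    rw [hQM]
    have h1 : ∑ k, d k * Q k j = d j * (m : ℤ) := by
      rw [hQ]
      simp only [Matrix.of_apply, mul_add, mul_ite, mul_zero, Finset.sum_add_distrib,
        Finset.sum_ite_eq', Finset.mem_univ, if_true]
      have h2 : ∑ x, d x * (d x * d j) = (2 * m) * d j := by
        rw [← hdd, Finset.sum_mul]
        refine Finset.sum_congr rfl fun x _ => by ring
      rw [h2, he, hd]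
      by_cases hj : j ∈ D
      · simp [hj]
        ring
      · simp [hj]
    rw [h1, hQ, hd, he]
    simp only [Matrix.of_apply, Matrix.smul_apply, Matrix.one_apply, smul_eq_mul]
    by_cases hi : i ∈ D <;> by_cases hj : j ∈ D <;> by_cases hij : i = j
    all_goals simp [hi, hj, hij]
    all_goals ring
  · ext i j
    rw [hMQ]
    have h1 : ∑ x, (Q * G.adjMatrix ℤ) i x * d x = d i * (2 * m * k) + e i * cnt G D i := by
      simp only [hQM, hcnt', add_mul, Finset.sum_add_distrib]
      rw [← hcd, ← hcnt, Finset.mul_sum, Finset.mul_sum]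
      congr 1
      · refine Finset.sum_congr rfl fun x _ => by ring
      · refine Finset.sum_congr rfl fun x _ => by ring
    rw [h1, hQM, hcnt']
    simp only [Matrix.smul_apply, smul_eq_mul, SimpleGraph.adjMatrix_apply]
    -- a vertex outside `D` with `0` or all neighbours in `D`
    have hm0 : ∀ v ∈ D, m ≠ 0 := by
      intro v hv hm
      have h3 := hD.card
      rw [hm, mul_zero] at h3
      have h4 : D = ∅ := Finset.card_eq_zero.1 h3
      rw [h4] at hv
      exact absurd hv (Finset.notMem_empty v)
    have hout : ∀ v ∈ D, ∀ w, w ∉ D →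
        (m : ℤ) * cnt G D w - m * m * (if G.Adj v w then (1 : ℤ) else 0) =
          m * m * (if H.Adj v w then (1 : ℤ) else 0) := by
      intro v hv w hw
      by_cases hc : cnt G D w = m
      · rw [hc]
        have := hD.flip v w hv hw hc
        by_cases hG : G.Adj v w
        · simp [hG, this]
        · simp [hG, this]
      · have hs := hD.same v w (fun hh => hc hh.2.2) (fun hh => hw hh.1)
        rcases hD.out w hw with h0 | h0 | h0
        · have hG : ¬ G.Adj v w := by
            intro hG
            unfold cnt at h0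
            rw [Finset.card_eq_zero, Finset.filter_eq_empty_iff] at h0
            exact h0 hv hG.symm
          simp [hG, hs, h0]
        · exact absurd h0 hc
        · have hG : G.Adj v w := by
            unfold cnt at h0
            rw [← hD.card, Finset.card_filter_eq_iff] at h0
            exact (h0 v hv).symm
          simp only [hG, hs, h0, if_true]
          push_cast
          ring
    rw [hd, he]
    by_cases hi : i ∈ D <;> by_cases hj : j ∈ D
    · have hs := hD.same i j (fun hh => hh.2.1 hj) (fun hh => hh.2.1 hi)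
      simp only [hi, hj, if_true, hk i hi, hk j hj, hs]
      ring
    · have := hout i hi j hj
      simp only [hi, hj, if_true, if_false]
      linear_combination this
    · have := hout j hj i hi
      simp only [G.adj_comm j i, H.adj_comm j i] at this
      simp only [hi, hj, if_true, if_false]
      linear_combination this
    · have hs := hD.same i j (fun hh => hi hh.1) (fun hh => hj hh.1)
      simp only [hi, hj, if_false, hs]
      ring

theorem main_tfae2 (G : SimpleGraph V) [DecidableRel G.Adj]
    (hc : (G.adjMatrix ℝ).charpoly = (kneser93.adjMatrix ℝ).charpoly) :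
    List.TFAE [Nonempty (G ≃g kneser93),
      (G.adjMatrix (ZMod 2)).rank ≤ 49,
      (G.adjMatrix (ZMod 3) + 1).rank ≤ 28,
      ∃ K : SimpleGraph V, Nonempty (K ≃g kneser93) ∧ Relation.ReflTransGen Sim K G,
      ∃ K : SimpleGraph V, Nonempty (K ≃g kneser93) ∧ Relation.ReflTransGen GMstep K G] := by
  have h := main_tfae G hc
  tfae_have 1 ↔ 2 := h.out 0 1
  tfae_have 1 ↔ 3 := h.out 0 2
  tfae_have 1 ↔ 4 := h.out 0 3
  tfae_have 1 → 5 := fun h => ⟨G, h, Relation.ReflTransGen.refl⟩
  tfae_have 5 → 4 := by
    rintro ⟨K, hK, hg⟩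
    exact ⟨K, hK, Relation.ReflTransGen.mono gm_sim _ _ hg⟩
  tfae_finish

end gm

end Pool.Agent.helper98.K93R
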